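import Pool.Agent.Helper89_Snark.Graph

/-! The 190-vertex graph `G` has no proper 3-edge-colouring. -/

namespace Pool.Agent.Helper89_Snark

/-- The number of the edge from `v` to its `k`-th neighbour (a dart number of this edge). -/
def eid (v k : ℕ) : ℕ :=
  bif Nat.blt (nb v k) v then
    (bif Nat.beq (nb (nb v k) 0) v then 3 * nb v k
      else bif Nat.beq (nb (nb v k) 1) v then 3 * nb v k + 1 else 3 * nb v k + 2)
  else 3 * v + k

theorem eid_spec : ∀ v < 190, ∀ k < 3, (eid v k / 3 = v ∧ eid v k % 3 = k) ∨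
    (eid v k / 3 = nb v k ∧ nb (nb v k) (eid v k % 3) = v) := by decide +kernel

/-- `a, b, c` is a permutation of `1, 2, 3`. -/
def P3 (a b c : ℕ) : Prop := 0 < a ∧ a < 4 ∧ 0 < b ∧ b < 4 ∧ 0 < c ∧ c < 4 ∧ a ≠ b ∧ a ≠ c ∧ b ≠ c

theorem P3.cases {a b c : ℕ} (h : P3 a b c) : (a = 1 ∧ b = 2 ∧ c = 3) ∨ (a = 1 ∧ b = 3 ∧ c = 2) ∨
    (a = 2 ∧ b = 1 ∧ c = 3) ∨ (a = 2 ∧ b = 3 ∧ c = 1) ∨ (a = 3 ∧ b = 1 ∧ c = 2) ∨
    (a = 3 ∧ b = 2 ∧ c = 1) := by
  unfold P3 at h
  omega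

theorem P3.xor_eq {a b c : ℕ} (h : P3 a b c) : a ^^^ b ^^^ c = 0 := by
  rcases h.cases with ⟨rfl, rfl, rfl⟩ | ⟨rfl, rfl, rfl⟩ | ⟨rfl, rfl, rfl⟩ | ⟨rfl, rfl, rfl⟩ |
    ⟨rfl, rfl, rfl⟩ | ⟨rfl, rfl, rfl⟩ <;> rfl

theorem P3.of_xor {a b c : ℕ} (ha : 0 < a) (ha' : a < 4) (hb : 0 < b) (hb' : b < 4) (hc : 0 < c)
    (hc' : c < 4) (h : a ^^^ b ^^^ c = 0) : P3 a b c := by
  refine ⟨ha, ha', hb, hb', hc, hc', ?_⟩
  interval_cases a <;> interval_cases b <;> interval_cases c <;> first | (exact absurd h (by decide)) | decide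

/-- May the edge `e` get the colour `a`? -/
def cmp (st e a : ℕ) : Bool :=
  (Nat.beq a 1 || !(Nat.testBit st (4 * e + 1))) && (Nat.beq a 2 || !(Nat.testBit st (4 * e + 2))) &&
    (Nat.beq a 3 || !(Nat.testBit st (4 * e + 3)))

/-- Give the edge `e` the colour `a`. -/
def put (st e a : ℕ) : ℕ := st ||| (1 <<< (4 * e + a))

/-- Try one permutation of the colours at one vertex. -/
def tryOne (rec : ℕ → Bool) (st e1 e2 e3 a b c : ℕ) : Bool :=
  bif cmp st e1 a && cmp st e2 b && cmp st e3 c then rec (put (put (put st e1 a) e2 b) e3 c)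
  else true

/-- `srch L st = true` : no colouring extends `st` and is proper at each triple of `L`. -/
def srch : List (ℕ × ℕ × ℕ) → ℕ → Bool
  | [], _ => false
  | (e1, e2, e3) :: L, st =>
    tryOne (srch L) st e1 e2 e3 1 2 3 && tryOne (srch L) st e1 e2 e3 1 3 2 &&
      tryOne (srch L) st e1 e2 e3 2 1 3 && tryOne (srch L) st e1 e2 e3 2 3 1 &&
      tryOne (srch L) st e1 e2 e3 3 1 2 && tryOne (srch L) st e1 e2 e3 3 2 1

/-- the partial colouring `st` agrees with `c`. -/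
def Inv (c : ℕ → ℕ) (st : ℕ) : Prop := ∀ e a, a < 4 → st.testBit (4 * e + a) = true → c e = a

theorem Inv.put {c : ℕ → ℕ} {st : ℕ} (h : Inv c st) (e : ℕ) (he : c e < 4) :
    Inv c (put st e (c e)) := by
  intro f a ha hf
  unfold Helper89_Snark.put at hf
  rw [Nat.testBit_or, Bool.or_eq_true] at hf
  rcases hf with hf | hf
  · exact h f a ha hf
  · rw [Nat.one_shiftLeft, Nat.testBit_two_pow] at hf
    have : 4 * e + c e = 4 * f + a := by simpa using hf
    have h1 : e = f := by omega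
    subst h1
    omega

theorem Inv.cmp {c : ℕ → ℕ} {st : ℕ} (h : Inv c st) (e : ℕ) : cmp st e (c e) = true := by
  unfold Helper89_Snark.cmp
  simp only [Bool.and_eq_true, Bool.or_eq_true, Nat.beq_eq, Bool.not_eq_true']
  refine ⟨⟨?_, ?_⟩, ?_⟩
  · by_cases h1 : st.testBit (4 * e + 1) = true
    · exact Or.inl (h e 1 (by norm_num) h1)
    · exact Or.inr (by simpa using h1)
  · by_cases h1 : st.testBit (4 * e + 2) = true
    · exact Or.inl (h e 2 (by norm_num) h1)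
    · exact Or.inr (by simpa using h1)
  · by_cases h1 : st.testBit (4 * e + 3) = true
    · exact Or.inl (h e 3 (by norm_num) h1)
    · exact Or.inr (by simpa using h1)

theorem srch_sound (c : ℕ → ℕ) : ∀ (L : List (ℕ × ℕ × ℕ)) (st : ℕ),
    (∀ t ∈ L, P3 (c t.1) (c t.2.1) (c t.2.2)) → Inv c st → srch L st = true → False
  | [], st, _, _, h => by simp [srch] at h
  | (e1, e2, e3) :: L, st, hL, hst, h => by
    have hp := hL (e1, e2, e3) (by simp)
    simp only at hp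
    have key : tryOne (srch L) st e1 e2 e3 (c e1) (c e2) (c e3) = true := by
      unfold srch at h
      simp only [Bool.and_eq_true] at h
      obtain ⟨⟨⟨⟨⟨h1, h2⟩, h3⟩, h4⟩, h5⟩, h6⟩ := h
      rcases hp.cases with ⟨a1, a2, a3⟩ | ⟨a1, a2, a3⟩ | ⟨a1, a2, a3⟩ | ⟨a1, a2, a3⟩ |
        ⟨a1, a2, a3⟩ | ⟨a1, a2, a3⟩ <;> rw [a1, a2, a3] <;> assumption
    unfold tryOne at key
    rw [hst.cmp, hst.cmp, hst.cmp, Bool.and_self, Bool.and_self, cond_true] at key
    have hp' := hp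
    obtain ⟨-, b1, -, b2, -, b3, -⟩ := hp'
    exact srch_sound c L _ (fun t ht => hL t (List.mem_cons_of_mem _ ht))
      (((hst.put e1 b1).put e2 b2).put e3 b3) key

/-- The triples of edges at the vertices of a list. -/
def trip (v : ℕ) : ℕ × ℕ × ℕ := (eid v 0, eid v 1, eid v 2)

/-- The vertices of the piece `(0, 0)`. -/
def piece00 : List ℕ := [97, 182, 187, 90, 183, 92, 186, 45, 93, 188, 189, 185, 181, 184, 91, 179, 44, 21]
/-- The left edges of the piece `(0, 0)`. -/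
def left00 : ℕ × ℕ × ℕ := (284, 287, 143)
/-- The vertices of the piece `(0, 1)`. -/
def piece01 : List ℕ := [129, 123, 60, 122, 118, 119, 58, 28, 121, 59, 120, 117, 124, 29, 13, 61, 125, 115]
/-- The left edges of the piece `(0, 1)`. -/
def left01 : ℕ × ℕ × ℕ := (356, 365, 191)
/-- The vertices of the piece `(0, 2)`. -/
def piece02 : List ℕ := [161, 155, 151, 74, 150, 154, 76, 156, 157, 77, 37, 149, 153, 17, 36, 75, 152, 147]
/-- The left edges of the piece `(0, 2)`. -/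
def left02 : ℕ × ℕ × ℕ := (452, 461, 239)
/-- The vertices of the piece `(1, 0)`. -/
def piece10 : List ℕ := [134, 137, 67, 138, 136, 66, 32, 68, 177, 139, 135, 133, 140, 15, 33, 69, 141, 131]
/-- The left edges of the piece `(1, 0)`. -/
def left10 : ℕ × ℕ × ℕ := (404, 413, 263)
/-- The vertices of the piece `(1, 1)`. -/
def piece11 : List ℕ := [166, 82, 167, 171, 113, 84, 170, 173, 172, 85, 41, 165, 169, 19, 40, 83, 168, 163]
/-- The left edges of the piece `(1, 1)`. -/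
def left11 : ℕ × ℕ × ℕ := (332, 335, 167)
/-- The vertices of the piece `(1, 2)`. -/
def piece12 : List ℕ := [102, 105, 51, 104, 106, 50, 24, 145, 107, 103, 52, 108, 101, 11, 25, 53, 109, 99]
/-- The left edges of the piece `(1, 2)`. -/
def left12 : ℕ × ℕ × ℕ := (308, 317, 215)
/-- The vertices of the supervertex `(0, 0)`. -/
def sup00 : List ℕ := [4, 10, 22, 23, 46, 47, 48, 49, 94, 95, 96, 98, 100]
/-- The vertices of the supervertex `(0, 1)`. -/
def sup01 : List ℕ := [6, 14, 30, 31, 62, 63, 64, 65, 126, 127, 128, 130, 132]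
/-- The vertices of the supervertex `(0, 2)`. -/
def sup02 : List ℕ := [8, 18, 38, 39, 78, 79, 80, 81, 158, 159, 160, 162, 164]
/-- The vertices of the supervertex `(1, 0)`. -/
def sup10 : List ℕ := [9, 20, 42, 43, 86, 87, 88, 89, 174, 175, 176, 178, 180]
/-- The vertices of the supervertex `(1, 1)`. -/
def sup11 : List ℕ := [5, 12, 26, 27, 54, 55, 56, 57, 110, 111, 112, 114, 116]
/-- The vertices of the supervertex `(1, 2)`. -/
def sup12 : List ℕ := [7, 16, 34, 35, 70, 71, 72, 73, 142, 143, 144, 146, 148]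

/-- The colouring of the left edges by `1, 2, 3`. -/
def st0 (l : ℕ × ℕ × ℕ) : ℕ := put (put (put 0 l.1 1) l.2.1 2) l.2.2 3

theorem srch00 : srch (piece00.map trip) (st0 left00) = true := by decide +kernel
theorem srch01 : srch (piece01.map trip) (st0 left01) = true := by decide +kernel
theorem srch02 : srch (piece02.map trip) (st0 left02) = true := by decide +kernel
theorem srch10 : srch (piece10.map trip) (st0 left10) = true := by decide +kernel
theorem srch11 : srch (piece11.map trip) (st0 left11) = true := by decide +kernel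
theorem srch12 : srch (piece12.map trip) (st0 left12) = true := by decide +kernel

/-- permute the colours -/
def perm (x y a : ℕ) : ℕ := if a = x then 1 else if a = y then 2 else 3

theorem perm_P3 {x y z a b c : ℕ} (h : P3 x y z) (h' : P3 a b c) :
    P3 (perm x y a) (perm x y b) (perm x y c) := by
  unfold perm
  rcases h.cases with ⟨rfl, rfl, rfl⟩ | ⟨rfl, rfl, rfl⟩ | ⟨rfl, rfl, rfl⟩ | ⟨rfl, rfl, rfl⟩ |
    ⟨rfl, rfl, rfl⟩ | ⟨rfl, rfl, rfl⟩ <;>
  rcases h'.cases with ⟨rfl, rfl, rfl⟩ | ⟨rfl, rfl, rfl⟩ | ⟨rfl, rfl, rfl⟩ | ⟨rfl, rfl, rfl⟩ |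
    ⟨rfl, rfl, rfl⟩ | ⟨rfl, rfl, rfl⟩ <;> simp [P3]

theorem piece_noncol (c : ℕ → ℕ) (L : List ℕ) (l : ℕ × ℕ × ℕ)
    (hs : srch (L.map trip) (st0 l) = true)
    (hL : ∀ v ∈ L, P3 (c (eid v 0)) (c (eid v 1)) (c (eid v 2)))
    (hl : P3 (c l.1) (c l.2.1) (c l.2.2)) : False := by
  have hp : P3 (c l.1) (c l.2.1) (c l.2.2) := hl
  obtain ⟨a1, a2, b1, b2, c1, c2, h1, h2, h3⟩ := hl
  set c' : ℕ → ℕ := fun e => perm (c l.1) (c l.2.1) (c e) with hc'
  have e1 : c' l.1 = 1 := by simp [hc', perm]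
  have e2 : c' l.2.1 = 2 := by simp [hc', perm, Ne.symm h1]
  have e3 : c' l.2.2 = 3 := by simp [hc', perm, Ne.symm h2, Ne.symm h3]
  have hinv0 : Inv c' 0 := by
    intro e a _ h
    simp at h
  have hinv : Inv c' (st0 l) := by
    have i1 := hinv0.put l.1 (by rw [e1]; norm_num)
    rw [e1] at i1
    have i2 := i1.put l.2.1 (by rw [e2]; norm_num)
    rw [e2] at i2
    have i3 := i2.put l.2.2 (by rw [e3]; norm_num)
    rw [e3] at i3
    exact i3
  refine srch_sound c' _ _ ?_ hinv hs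
  intro t ht
  obtain ⟨v, hv, rfl⟩ := List.mem_map.1 ht
  exact perm_P3 hp (hL v hv)

/-- `XOR` of the values of `c` over the bits `< n` of the mask `m`. -/
def ev (c : ℕ → ℕ) (m : ℕ) : ℕ → ℕ
  | 0 => 0
  | n + 1 => (bif m.testBit n then c n else 0) ^^^ ev c m n

theorem ev_xor (c : ℕ → ℕ) (m m' : ℕ) : ∀ n, ev c (m ^^^ m') n = ev c m n ^^^ ev c m' n
  | 0 => by simp [ev]
  | n + 1 => by
    unfold ev
    rw [ev_xor c m m' n, Nat.testBit_xor]
    cases m.testBit n <;> cases m'.testBit n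
    · simp
    · simp only [Bool.false_bne, cond_true, cond_false, Nat.zero_xor]
      rw [← Nat.xor_assoc, ← Nat.xor_assoc, Nat.xor_comm (c n)]
    · simp [Nat.xor_assoc]
    · simp only [bne_self_eq_false, cond_true, cond_false, Nat.zero_xor]
      rw [Nat.xor_assoc, ← Nat.xor_assoc (ev c m n), Nat.xor_comm (ev c m n) (c n),
        ← Nat.xor_assoc, ← Nat.xor_assoc, Nat.xor_self, Nat.zero_xor]

theorem ev_zero (c : ℕ → ℕ) : ∀ n, ev c 0 n = 0
  | 0 => rfl
  | n + 1 => by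
    unfold ev
    rw [ev_zero c n]
    simp

theorem ev_pow_ge (c : ℕ → ℕ) (i : ℕ) : ∀ n, n ≤ i → ev c (2 ^ i) n = 0
  | 0, _ => rfl
  | n + 1, h => by
    unfold ev
    rw [ev_pow_ge c i n (by omega), Nat.testBit_two_pow]
    simp only [Nat.xor_zero]
    rw [decide_eq_false (by omega), cond_false]

theorem ev_pow (c : ℕ → ℕ) (i : ℕ) : ∀ n, i < n → ev c (2 ^ i) n = c i
  | 0, h => by omega
  | n + 1, h => by
    unfold ev
    rw [Nat.testBit_two_pow]
    rcases Nat.eq_or_lt_of_le (Nat.le_of_lt_succ h) with rfl | h1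
    · rw [ev_pow_ge c i i le_rfl]
      simp
    · rw [ev_pow c i n h1, decide_eq_false (by omega), cond_false, Nat.zero_xor]

/-- The mask of the edges at `v`. -/
def vmask (v : ℕ) : ℕ := 2 ^ eid v 0 ^^^ 2 ^ eid v 1 ^^^ 2 ^ eid v 2

/-- The mask of the edges leaving the vertex set of a list. -/
def lmask : List ℕ → ℕ
  | [] => 0
  | v :: L => vmask v ^^^ lmask L

theorem eid_lt : ∀ v < 190, ∀ k < 3, eid v k < 570 := by decide +kernel

theorem ev_vmask (c : ℕ → ℕ) (v : ℕ) (hv : v < 190)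
    (h : P3 (c (eid v 0)) (c (eid v 1)) (c (eid v 2))) : ev c (vmask v) 570 = 0 := by
  unfold vmask
  rw [ev_xor, ev_xor, ev_pow _ _ _ (eid_lt v hv 0 (by norm_num)),
    ev_pow _ _ _ (eid_lt v hv 1 (by norm_num)), ev_pow _ _ _ (eid_lt v hv 2 (by norm_num)), h.xor_eq]

theorem ev_lmask (c : ℕ → ℕ) (h : ∀ v < 190, P3 (c (eid v 0)) (c (eid v 1)) (c (eid v 2))) :
    ∀ L : List ℕ, (∀ v ∈ L, v < 190) → ev c (lmask L) 570 = 0
  | [], _ => ev_zero _ _
  | v :: L, hL => by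
    unfold lmask
    rw [ev_xor, ev_vmask c v (hL v (by simp)) (h v (hL v (by simp))),
      ev_lmask c h L (fun w hw => hL w (List.mem_cons_of_mem _ hw))]
    rfl

/-- mask of a triple of edges -/
def tmask (l : ℕ × ℕ × ℕ) : ℕ := 2 ^ l.1 ^^^ 2 ^ l.2.1 ^^^ 2 ^ l.2.2

theorem ev_tmask (c : ℕ → ℕ) (l : ℕ × ℕ × ℕ) (h1 : l.1 < 570) (h2 : l.2.1 < 570)
    (h3 : l.2.2 < 570) : ev c (tmask l) 570 = c l.1 ^^^ c l.2.1 ^^^ c l.2.2 := by
  unfold tmask
  rw [ev_xor, ev_xor, ev_pow _ _ _ h1, ev_pow _ _ _ h2, ev_pow _ _ _ h3]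

/-- the colour of the superedge -/
def sig (c : ℕ → ℕ) (l : ℕ × ℕ × ℕ) : ℕ := c l.1 ^^^ c l.2.1 ^^^ c l.2.2

theorem sig_lt (c : ℕ → ℕ) (l : ℕ × ℕ × ℕ) (h1 : c l.1 < 4) (h2 : c l.2.1 < 4)
    (h3 : c l.2.2 < 4) : sig c l < 4 := by
  unfold sig
  have := Nat.xor_lt_two_pow (n := 2) (x := c l.1) (y := c l.2.1) (by simpa) (by simpa)
  exact Nat.xor_lt_two_pow (n := 2) this (by simpa)

theorem super_eq (c : ℕ → ℕ) (h : ∀ v < 190, P3 (c (eid v 0)) (c (eid v 1)) (c (eid v 2)))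
    (L : List ℕ) (hL : ∀ v ∈ L, v < 190) (n : ℕ) (hn : n < 570) (l l' : ℕ × ℕ × ℕ)
    (h1 : l.1 < 570) (h2 : l.2.1 < 570) (h3 : l.2.2 < 570) (h1' : l'.1 < 570) (h2' : l'.2.1 < 570)
    (h3' : l'.2.2 < 570) (hm : lmask L = 2 ^ n ^^^ tmask l ^^^ tmask l') :
    c n = sig c l ^^^ sig c l' := by
  have h0 := ev_lmask c h L hL
  rw [hm, ev_xor, ev_xor, ev_pow _ _ _ hn, ev_tmask c l h1 h2 h3, ev_tmask c l' h1' h2' h3'] at h0
  unfold sig
  rw [Nat.xor_assoc] at h0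
  exact Nat.xor_eq_zero_iff.1 h0

theorem final_check : ∀ a0 < 4, ∀ a1 < 4, ∀ a2 < 4, ∀ a3 < 4, ∀ a4 < 4, ∀ a5 < 4,
    (Nat.beq a0 0 || Nat.beq a1 0 || Nat.beq a2 0 || Nat.beq a3 0 || Nat.beq a4 0 || Nat.beq a5 0 ||
    Nat.beq (a0 ^^^ a5) 0 || Nat.beq (a1 ^^^ a0) 0 || Nat.beq (a2 ^^^ a1) 0 ||
    Nat.beq (a3 ^^^ a2) 0 || Nat.beq (a4 ^^^ a3) 0 || Nat.beq (a5 ^^^ a4) 0 ||
    Nat.beq (a0 ^^^ a5) (a3 ^^^ a2) || Nat.beq (a2 ^^^ a1) (a5 ^^^ a4) ||
    Nat.beq (a4 ^^^ a3) (a1 ^^^ a0)) = true := by decide +kernel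

theorem final_check' (a0 a1 a2 a3 a4 a5 : ℕ) (h0 : a0 < 4) (h1 : a1 < 4) (h2 : a2 < 4) (h3 : a3 < 4)
    (h4 : a4 < 4) (h5 : a5 < 4) (z0 : a0 ≠ 0) (z1 : a1 ≠ 0) (z2 : a2 ≠ 0) (z3 : a3 ≠ 0)
    (z4 : a4 ≠ 0) (z5 : a5 ≠ 0) (y0 : a0 ^^^ a5 ≠ 0) (y1 : a1 ^^^ a0 ≠ 0) (y2 : a2 ^^^ a1 ≠ 0)
    (y3 : a3 ^^^ a2 ≠ 0) (y4 : a4 ^^^ a3 ≠ 0) (y5 : a5 ^^^ a4 ≠ 0)
    (x0 : a0 ^^^ a5 ≠ a3 ^^^ a2) (x1 : a2 ^^^ a1 ≠ a5 ^^^ a4) (x2 : a4 ^^^ a3 ≠ a1 ^^^ a0) :
    False := by
  have h := final_check a0 h0 a1 h1 a2 h2 a3 h3 a4 h4 a5 h5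
  simp only [Bool.or_eq_true, Nat.beq_eq] at h
  tauto

theorem sig_ok (c : ℕ → ℕ) (h : ∀ v < 190, P3 (c (eid v 0)) (c (eid v 1)) (c (eid v 2)))
    (L : List ℕ) (hL : ∀ v ∈ L, v < 190) (l : ℕ × ℕ × ℕ)
    (h1 : l.1 / 3 < 190 ∧ eid (l.1 / 3) (l.1 % 3) = l.1)
    (h2 : l.2.1 / 3 < 190 ∧ eid (l.2.1 / 3) (l.2.1 % 3) = l.2.1)
    (h3 : l.2.2 / 3 < 190 ∧ eid (l.2.2 / 3) (l.2.2 % 3) = l.2.2)
    (hs : srch (L.map trip) (st0 l) = true) : sig c l < 4 ∧ sig c l ≠ 0 := by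
  have key : ∀ e, e / 3 < 190 ∧ eid (e / 3) (e % 3) = e → 0 < c e ∧ c e < 4 := by
    rintro e ⟨he, he'⟩
    have hp := h _ he
    have hk : e % 3 = 0 ∨ e % 3 = 1 ∨ e % 3 = 2 := by omega
    unfold P3 at hp
    rcases hk with hk | hk | hk
    · rw [hk] at he'; rw [he'] at hp; omega
    · rw [hk] at he'; rw [he'] at hp; omega
    · rw [hk] at he'; rw [he'] at hp; omega
  have k1 := key _ h1
  have k2 := key _ h2
  have k3 := key _ h3
  refine ⟨sig_lt c l k1.2 k2.2 k3.2, fun h0 => ?_⟩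
  exact piece_noncol c L l hs (fun v hv => h v (hL v hv))
    (P3.of_xor k1.1 k1.2 k2.1 k2.2 k3.1 k3.2 h0)

theorem not_P3 (c : ℕ → ℕ) (h : ∀ v < 190, P3 (c (eid v 0)) (c (eid v 1)) (c (eid v 2))) :
    False := by
  have s00 := sig_ok c h piece00 (by decide) left00 (by decide +kernel) (by decide +kernel)
    (by decide +kernel) srch00
  have s01 := sig_ok c h piece01 (by decide) left01 (by decide +kernel) (by decide +kernel)
    (by decide +kernel) srch01
  have s02 := sig_ok c h piece02 (by decide) left02 (by decide +kernel) (by decide +kernel)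
    (by decide +kernel) srch02
  have s10 := sig_ok c h piece10 (by decide) left10 (by decide +kernel) (by decide +kernel)
    (by decide +kernel) srch10
  have s11 := sig_ok c h piece11 (by decide) left11 (by decide +kernel) (by decide +kernel)
    (by decide +kernel) srch11
  have s12 := sig_ok c h piece12 (by decide) left12 (by decide +kernel) (by decide +kernel)
    (by decide +kernel) srch12
  have n00 := super_eq c h (sup00 ++ piece12) (by decide) 4 (by norm_num) left00 left12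
    (by decide) (by decide) (by decide) (by decide) (by decide) (by decide) (by decide +kernel)
  have n10 := super_eq c h (sup10 ++ piece00) (by decide) 11 (by norm_num) left10 left00
    (by decide) (by decide) (by decide) (by decide) (by decide) (by decide) (by decide +kernel)
  have n01 := super_eq c h (sup01 ++ piece10) (by decide) 7 (by norm_num) left01 left10
    (by decide) (by decide) (by decide) (by decide) (by decide) (by decide) (by decide +kernel)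
  have n11 := super_eq c h (sup11 ++ piece01) (by decide) 5 (by norm_num) left11 left01
    (by decide) (by decide) (by decide) (by decide) (by decide) (by decide) (by decide +kernel)
  have n02 := super_eq c h (sup02 ++ piece11) (by decide) 10 (by norm_num) left02 left11
    (by decide) (by decide) (by decide) (by decide) (by decide) (by decide) (by decide +kernel)
  have n12 := super_eq c h (sup12 ++ piece02) (by decide) 8 (by norm_num) left12 left02
    (by decide) (by decide) (by decide) (by decide) (by decide) (by decide) (by decide +kernel)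
  have p1 := h 1 (by norm_num)
  have p2 := h 2 (by norm_num)
  have p3 := h 3 (by norm_num)
  rw [show eid 1 0 = 0 by decide +kernel, show eid 1 1 = 4 by decide +kernel,
    show eid 1 2 = 5 by decide +kernel] at p1
  rw [show eid 2 0 = 1 by decide +kernel, show eid 2 1 = 7 by decide +kernel,
    show eid 2 2 = 8 by decide +kernel] at p2
  rw [show eid 3 0 = 2 by decide +kernel, show eid 3 1 = 10 by decide +kernel,
    show eid 3 2 = 11 by decide +kernel] at p3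
  obtain ⟨-, -, q1, -, q2, -, -, -, q3⟩ := p1
  obtain ⟨-, -, q4, -, q5, -, -, -, q6⟩ := p2
  obtain ⟨-, -, q7, -, q8, -, -, -, q9⟩ := p3
  rw [n00, n11] at q3
  rw [n01, n12] at q6
  rw [n02, n10] at q9
  exact final_check' _ _ _ _ _ _ s00.1 s10.1 s01.1 s11.1 s02.1 s12.1 s00.2 s10.2 s01.2 s11.2
    s02.2 s12.2 (n00 ▸ q1.ne') (n10 ▸ q8.ne') (n01 ▸ q4.ne') (n11 ▸ q2.ne') (n02 ▸ q7.ne')
    (n12 ▸ q5.ne') q3 q6 q9

theorem G_not_colorable : ¬ G.lineGraph.Colorable 3 := by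
  rintro ⟨f⟩
  let g : Fin 190 → Fin 3 → ℕ := fun v k =>
    (f ⟨s(v, nbF v k), (SimpleGraph.mem_edgeSet G).2 (G_adj_nbF v k)⟩).val + 1
  have hg1 : ∀ v k, 0 < g v k ∧ g v k < 4 := by
    intro v k
    have := (f ⟨s(v, nbF v k), (SimpleGraph.mem_edgeSet G).2 (G_adj_nbF v k)⟩).2
    simp only [g]
    omega
  have hg2 : ∀ v k l, k ≠ l → g v k ≠ g v l := by
    intro v k l hkl h
    simp only [g, add_left_inj] at h
    have h1 := Fin.ext h
    refine f.valid ?_ h1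
    rw [SimpleGraph.lineGraph_adj_iff_exists]
    refine ⟨fun h2 => ?_, v, by simp, by simp⟩
    have h3 := congrArg Subtype.val h2
    simp only [Sym2.eq_iff] at h3
    rcases h3 with ⟨-, h3⟩ | ⟨h3, h4⟩
    · exact hkl (nbF_injective v h3)
    · exact (G_adj_nbF v k).ne h4.symm
  have hg3 : ∀ v k w l, nbF v k = w → nbF w l = v → g v k = g w l := by
    intro v k w l h1 h2
    subst h1
    simp only [g, add_left_inj]
    congr 2
    apply Subtype.ext
    simp only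
    rw [h2, Sym2.eq_swap]
  let c : ℕ → ℕ := fun n => if h : n / 3 < 190 then g ⟨n / 3, h⟩ ⟨n % 3, Nat.mod_lt _ (by norm_num)⟩
    else 1
  have hc : ∀ (v : ℕ) (hv : v < 190) (k : ℕ) (hk : k < 3), c (eid v k) = g ⟨v, hv⟩ ⟨k, hk⟩ := by
    intro v hv k hk
    rcases eid_spec v hv k hk with ⟨h1, h2⟩ | ⟨h1, h2⟩
    · simp only [c, h1, h2, hv, dif_pos]
    · have hlt : nb v k < 190 := nb_lt v hv k hk
      have : c (eid v k) = g ⟨nb v k, hlt⟩ ⟨eid v k % 3, Nat.mod_lt _ (by norm_num)⟩ := by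
        simp only [c, h1, hlt, dif_pos]
      rw [this]
      exact (hg3 ⟨v, hv⟩ ⟨k, hk⟩ ⟨nb v k, hlt⟩ ⟨eid v k % 3, Nat.mod_lt _ (by norm_num)⟩ rfl
        (Fin.ext h2)).symm
  refine not_P3 c (fun v hv => ?_)
  rw [hc v hv 0 (by norm_num), hc v hv 1 (by norm_num), hc v hv 2 (by norm_num)]
  exact ⟨(hg1 _ _).1, (hg1 _ _).2, (hg1 _ _).1, (hg1 _ _).2, (hg1 _ _).1, (hg1 _ _).2,
    hg2 _ _ _ (by decide), hg2 _ _ _ (by decide), hg2 _ _ _ (by decide)⟩

theorem G_snark : IsSnark G := by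
  refine ⟨G_cubic, ?_, ?_, G_not_colorable⟩
  · intro S hS hc
    exact G_cyclic S hS (by omega)
  · exact le_trans (by norm_num) G_girth

end Pool.Agent.Helper89_Snark
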