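import Mathlib

/-!
# Definitions: snarks, cyclic edge-connectivity, the trees `T_i`, rotation `T_i`-snarks
-/

namespace Pool.Agent.Helper89_Snark

/-- `G` is cyclically `k`-edge-connected: no set of fewer than `k` edges can be deleted so that the
result has two (different) components that each contain a cycle. -/
def CyclicallyEdgeConnected {V : Type} (G : SimpleGraph V) (k : ℕ) : Prop :=
  ∀ S : Finset (Sym2 V), (∀ e ∈ S, e ∈ G.edgeSet) → S.card < k →
    ¬ ∃ C D : (G.deleteEdges (S : Set (Sym2 V))).ConnectedComponent, C ≠ D ∧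
      (∃ (v : V) (p : (G.deleteEdges (S : Set (Sym2 V))).Walk v v), p.IsCycle ∧ v ∈ C.supp) ∧
      (∃ (v : V) (p : (G.deleteEdges (S : Set (Sym2 V))).Walk v v), p.IsCycle ∧ v ∈ D.supp)

/-- A snark: a cubic graph that is cyclically 4-edge-connected, has girth at least 5 and has no
proper 3-edge-colouring (no proper 3-colouring of its line graph). -/
def IsSnark {V : Type} (G : SimpleGraph V) : Prop :=
  (∀ v, (G.neighborSet v).ncard = 3) ∧ CyclicallyEdgeConnected G 4 ∧ 5 ≤ G.egirth ∧
    ¬ G.lineGraph.Colorable 3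

/-- `v` is a leaf (a vertex of degree 1) of `T`. -/
def IsLeaf {V : Type} (T : SimpleGraph V) (v : V) : Prop := (T.neighborSet v).ncard = 1

/-- `T` is a copy of the tree `T_i` with centre `x`: `T` is a tree all of whose vertices have
degree 1 or 3, and the degree-3 vertex `x` is at distance exactly `i` from every leaf. -/
def IsTi {V : Type} (T : SimpleGraph V) (i : ℕ) (x : V) : Prop :=
  T.IsTree ∧ (∀ v, (T.neighborSet v).ncard = 1 ∨ (T.neighborSet v).ncard = 3) ∧
    (T.neighborSet x).ncard = 3 ∧ ∀ v, IsLeaf T v → T.dist x v = i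

/-- A crossing-free drawing of `T` in the plane `ℂ`, with all leaves on the circle `|z| = 1` and
the whole rest of `T` inside this circle: the vertex `v` is drawn at the point `φ v` and the edge
`uv` as the arc `γ u v : [0, 1] → ℂ` from `φ u` to `φ v`. -/
structure IsDiscDrawing {V : Type} (T : SimpleGraph V) (φ : V → ℂ) (γ : V → V → ℝ → ℂ) :
    Prop where
  /-- different vertices are drawn at different points -/
  inj : Function.Injective φ
  /-- each edge is drawn as a simple arc joining its two ends -/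
  arc : ∀ u v, T.Adj u v → ContinuousOn (γ u v) (Set.Icc 0 1) ∧
    Set.InjOn (γ u v) (Set.Icc 0 1) ∧ γ u v 0 = φ u ∧ γ u v 1 = φ v
  /-- `γ v u` is the reverse of `γ u v` -/
  symm : ∀ u v, T.Adj u v → ∀ t ∈ Set.Icc (0 : ℝ) 1, γ v u t = γ u v (1 - t)
  /-- the interior of an edge contains no vertex -/
  vertex_free : ∀ u v, T.Adj u v → ∀ t ∈ Set.Ioo (0 : ℝ) 1, ∀ w, γ u v t ≠ φ w
  /-- the interiors of two different edges do not meet -/
  edge_free : ∀ u v x y, T.Adj u v → T.Adj x y → s(u, v) ≠ s(x, y) →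
    ∀ s ∈ Set.Ioo (0 : ℝ) 1, ∀ t ∈ Set.Ioo (0 : ℝ) 1, γ u v s ≠ γ x y t
  /-- the leaves lie on the circle -/
  leaf_circle : ∀ v, IsLeaf T v → ‖φ v‖ = 1
  /-- the other vertices lie inside the circle -/
  inner_disc : ∀ v, ¬ IsLeaf T v → ‖φ v‖ < 1
  /-- the interiors of the edges lie inside the circle -/
  edge_disc : ∀ u v, T.Adj u v → ∀ t ∈ Set.Ioo (0 : ℝ) 1, ‖γ u v t‖ < 1

/-- The point set of the plane graph `H` formed by the drawing of `T` and the circle. -/
def planeGraph {V : Type} (T : SimpleGraph V) (γ : V → V → ℝ → ℂ) : Set ℂ :=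
  Metric.sphere 0 1 ∪ {z | ∃ u v, T.Adj u v ∧ z ∈ γ u v '' Set.Icc 0 1}

/-- `lab 0, …, lab (l - 1)` are exactly the leaves of `T`, each once, and the labels increase
clockwise along the circle (`θ a` is the clockwise angle of the leaf with label `a`). -/
def ClockwiseLabels {V : Type} (T : SimpleGraph V) (φ : V → ℂ) (l : ℕ) (lab : ℕ → V) : Prop :=
  Set.BijOn lab (Set.Iio l) {v | IsLeaf T v} ∧
    ∃ θ : ℕ → ℝ, (∀ a < l, φ (lab a) = Complex.exp (-(θ a : ℂ) * Complex.I)) ∧
      (∀ a b, a < b → b < l → θ a < θ b) ∧ ∀ a < l, θ a < θ 0 + 2 * Real.pi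

/-- `G` is a rotation `T_i`-snark: a snark with a spanning tree `T ≅ T_i` with centre `x` whose
`l = 3 * 2 ^ (i - 1)` leaves can be labelled `0, …, l - 1` such that
(1) `T` has a crossing-free drawing in the plane with all leaves on a circle, all edges inside this
circle and the labels increasing clockwise along the circle;
(2) in the plane graph formed by this drawing together with the circle, the leaves `l - 1`, `0` and
the centre `x` lie on the boundary of one common face;
(3) whenever `G` has an edge joining the leaves `a`, `b`, it also has an edge joining the leaves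
`a + l / 3` and `b + l / 3` (labels modulo `l`). -/
def IsRotationSnark {V : Type} (G : SimpleGraph V) (i : ℕ) : Prop :=
  IsSnark G ∧ ∃ (T : SimpleGraph V) (x : V) (φ : V → ℂ) (γ : V → V → ℝ → ℂ) (lab : ℕ → V),
    T ≤ G ∧ IsTi T i x ∧ IsDiscDrawing T φ γ ∧ ClockwiseLabels T φ (3 * 2 ^ (i - 1)) lab ∧
    (∃ z ∈ (planeGraph T γ)ᶜ,
      φ x ∈ frontier (connectedComponentIn (planeGraph T γ)ᶜ z) ∧
      φ (lab 0) ∈ frontier (connectedComponentIn (planeGraph T γ)ᶜ z) ∧
      φ (lab (3 * 2 ^ (i - 1) - 1)) ∈ frontier (connectedComponentIn (planeGraph T γ)ᶜ z)) ∧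
    ∀ a < 3 * 2 ^ (i - 1), ∀ b < 3 * 2 ^ (i - 1), G.Adj (lab a) (lab b) →
      G.Adj (lab ((a + 2 ^ (i - 1)) % (3 * 2 ^ (i - 1))))
        (lab ((b + 2 ^ (i - 1)) % (3 * 2 ^ (i - 1))))

end Pool.Agent.Helper89_Snark
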