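import Pool.Agent.Helper89_Snark.Tree

/-! The drawing of the tree `T` in the closed unit disc. -/

namespace Pool.Agent.Helper89_Snark

open Real

/-- The vertex `m` is drawn at the clockwise angle `num m * π / 96`. -/
def num (m : ℕ) : ℕ := (2 * (m - (3 * 2 ^ (dep m - 1) - 2)) + 1) * 2 ^ (6 - dep m)

/-- The edge from the parent of `m` to `m` starts at the clockwise angle `pnum m * π / 96`. -/
def pnum (m : ℕ) : ℕ := if m ≤ 3 then num m else num (par m)

theorem num_bounds : ∀ m < 190, 0 < m → 0 < num m ∧ num m < 192 ∧ 0 < pnum m ∧ pnum m < 192 := by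
  decide +kernel

theorem dep_bounds : ∀ m < 190, 0 < m → 0 < dep m ∧ dep m ≤ 6 := by
  decide +kernel

/-- monotonicity check -/
def monoCk (u w : ℕ) : Bool :=
  Nat.beq u 0 || Nat.ble w u || !(Nat.beq (dep u) (dep w)) ||
    (Nat.blt (num u) (num w) && Nat.ble (pnum u) (pnum w))

theorem monoCk_true : ∀ u < 190, ∀ w < 190, monoCk u w = true := by decide +kernel

theorem num_mono {u w : ℕ} (hw : w < 190) (h0 : 0 < u) (h : u < w) (hd : dep u = dep w) :
    num u < num w ∧ pnum u ≤ pnum w := by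
  have h1 := monoCk_true u (by omega) w hw
  unfold monoCk at h1
  simp only [Bool.or_eq_true, Bool.and_eq_true, Nat.beq_eq, Nat.ble_eq, Bool.not_eq_true',
    Nat.blt_eq] at h1
  rcases h1 with ((h1 | h1) | h1) | h1
  · omega
  · omega
  · rw [hd] at h1
    exact absurd h1 (by simp)
  · exact h1

/-- The point with polar coordinates `r` and (clockwise) `α`. -/
noncomputable def pt (r α : ℝ) : ℂ := (r : ℂ) * Complex.exp (-(α : ℂ) * Complex.I)

theorem norm_pt {r α : ℝ} (h : 0 ≤ r) : ‖pt r α‖ = r := by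
  unfold pt
  rw [norm_mul, Complex.norm_real, Real.norm_eq_abs, abs_of_nonneg h,
    show (-(α : ℂ) * Complex.I) = ((-α : ℝ) : ℂ) * Complex.I by push_cast; ring,
    Complex.norm_exp_ofReal_mul_I, mul_one]

theorem pt_eq {r s α β : ℝ} (hr : 0 < r) (hs : 0 ≤ s) (h : pt r α = pt s β) :
    r = s ∧ ∃ n : ℤ, α = β + n * (2 * π) := by
  have hrs : r = s := by
    rw [← norm_pt (α := α) hr.le, h, norm_pt hs]
  refine ⟨hrs, ?_⟩
  subst hrs
  unfold pt at h
  have hr' : (r : ℂ) ≠ 0 := by exact_mod_cast hr.ne'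
  have h1 := mul_left_cancel₀ hr' h
  rw [Complex.exp_eq_exp_iff_exists_int] at h1
  obtain ⟨n, hn⟩ := h1
  refine ⟨-n, ?_⟩
  have h2 : ((α : ℂ)) = β + ((-n : ℤ) : ℂ) * (2 * π) := by
    have h3 : (-(α : ℂ) * Complex.I) = (-(β : ℂ) + n * (2 * π)) * Complex.I := by
      rw [hn]; ring
    have h4 := mul_right_cancel₀ Complex.I_ne_zero h3
    push_cast
    linear_combination -h4
  exact_mod_cast h2

theorem pt_inj {r s α β : ℝ} (hr : 0 < r) (hs : 0 ≤ s) (h : pt r α = pt s β)
    (ha : 0 < α) (ha' : α < 2 * π) (hb : 0 < β) (hb' : β < 2 * π) : r = s ∧ α = β := by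
  obtain ⟨h1, n, hn⟩ := pt_eq hr hs h
  refine ⟨h1, ?_⟩
  have hpi := Real.pi_pos
  have h2 : (n : ℝ) < 1 := by
    by_contra hcon
    push Not at hcon
    nlinarith
  have h3 : (-1 : ℝ) < n := by
    by_contra hcon
    push Not at hcon
    nlinarith
  have h4 : n = 0 := by
    have h5 : n < 1 := by exact_mod_cast h2
    have h6 : -1 < n := by exact_mod_cast h3
    omega
  rw [hn, h4]
  simp

/-- The clockwise angle of the point at time `t` of the edge from the parent of `m` to `m`. -/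
noncomputable def ang (m : ℕ) (t : ℝ) : ℝ := ((1 - t) * pnum m + t * num m) * π / 96

/-- The edge from the parent of `m` to `m`. -/
noncomputable def Gam (m : ℕ) (t : ℝ) : ℂ := pt ((dep m - 1 + t) / 6) (ang m t)

/-- The position of the vertex `m`. -/
noncomputable def phi (m : ℕ) : ℂ := pt (dep m / 6) (num m * π / 96)

theorem ang_bounds {m : ℕ} (hm : m < 190) (h0 : 0 < m) {t : ℝ} (ht : t ∈ Set.Icc (0 : ℝ) 1) :
    π / 96 ≤ ang m t ∧ ang m t ≤ 2 * π - π / 96 := by
  obtain ⟨h1, h2, h3, h4⟩ := num_bounds m hm h0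
  have h1' : (1 : ℝ) ≤ num m := by exact_mod_cast h1
  have h3' : (1 : ℝ) ≤ pnum m := by exact_mod_cast h3
  have h2' : (num m : ℝ) ≤ 191 := by exact_mod_cast Nat.le_of_lt_succ h2
  have h4' : (pnum m : ℝ) ≤ 191 := by exact_mod_cast Nat.le_of_lt_succ h4
  obtain ⟨t0, t1⟩ := ht
  have hpi := Real.pi_pos
  have k1 : 1 ≤ (1 - t) * pnum m + t * num m := by nlinarith
  have k2 : (1 - t) * pnum m + t * num m ≤ 191 := by nlinarith
  unfold ang
  constructor
  · have := mul_le_mul_of_nonneg_right k1 hpi.le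
    linarith
  · have := mul_le_mul_of_nonneg_right k2 hpi.le
    linarith

theorem ang_pos {m : ℕ} (hm : m < 190) (h0 : 0 < m) {t : ℝ} (ht : t ∈ Set.Icc (0 : ℝ) 1) :
    0 < ang m t ∧ ang m t < 2 * π := by
  have h := ang_bounds hm h0 ht
  have hpi := Real.pi_pos
  constructor <;> linarith [h.1, h.2]

theorem rad_nonneg {m : ℕ} (hm : m < 190) (h0 : 0 < m) {t : ℝ} (ht : t ∈ Set.Icc (0 : ℝ) 1) :
    0 ≤ ((dep m : ℝ) - 1 + t) / 6 := by
  obtain ⟨h1, -⟩ := dep_bounds m hm h0
  have h1' : (1 : ℝ) ≤ dep m := by exact_mod_cast h1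
  have := ht.1
  linarith

theorem norm_Gam {m : ℕ} (hm : m < 190) (h0 : 0 < m) {t : ℝ} (ht : t ∈ Set.Icc (0 : ℝ) 1) :
    ‖Gam m t‖ = (dep m - 1 + t) / 6 := norm_pt (rad_nonneg hm h0 ht)

theorem norm_phi (m : ℕ) : ‖phi m‖ = dep m / 6 := norm_pt (by positivity)

theorem Gam_one (m : ℕ) : Gam m 1 = phi m := by
  unfold Gam phi ang
  congr 1
  · ring
  · ring

theorem phi_zero : phi 0 = 0 := by
  have : dep 0 = 0 := rfl
  unfold phi pt
  rw [this]
  simp

theorem Gam_zero {m : ℕ} (hm : m < 190) (h0 : 0 < m) : Gam m 0 = phi (par m) := by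
  have hd := dep_par m hm h0
  by_cases h3 : m ≤ 3
  · have hp : par m = 0 := by unfold par; rw [if_pos h3]
    rw [hp] at hd ⊢
    rw [phi_zero]
    have h0' : dep 0 = 0 := rfl
    unfold Gam pt
    rw [hd, h0']
    simp
  · have hp : pnum m = num (par m) := by unfold pnum; rw [if_neg h3]
    unfold Gam phi ang
    rw [hd, hp]
    push_cast
    congr 1
    · ring
    · ring

theorem Gam_continuous (m : ℕ) : Continuous (Gam m) := by
  unfold Gam pt ang
  fun_prop

theorem Gam_injOn {m : ℕ} (hm : m < 190) (h0 : 0 < m) : Set.InjOn (Gam m) (Set.Icc 0 1) := by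
  intro s hs t ht h
  have := congrArg norm h
  rw [norm_Gam hm h0 hs, norm_Gam hm h0 ht] at this
  linarith

theorem Gam_disc {m : ℕ} (hm : m < 190) (h0 : 0 < m) {t : ℝ} (ht : t ∈ Set.Ioo (0 : ℝ) 1) :
    ‖Gam m t‖ < 1 := by
  rw [norm_Gam hm h0 ⟨ht.1.le, ht.2.le⟩]
  obtain ⟨-, h2⟩ := dep_bounds m hm h0
  have h2' : (dep m : ℝ) ≤ 6 := by exact_mod_cast h2
  have := ht.2
  linarith

theorem Gam_vertex_free {m : ℕ} (hm : m < 190) (h0 : 0 < m) {t : ℝ} (ht : t ∈ Set.Ioo (0 : ℝ) 1)
    (w : ℕ) : Gam m t ≠ phi w := by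
  intro h
  have h1 := congrArg norm h
  rw [norm_Gam hm h0 ⟨ht.1.le, ht.2.le⟩, norm_phi] at h1
  have h2 : (dep m : ℝ) - 1 + t = dep w := by linarith
  have h3 : (dep m : ℝ) < dep w + 1 := by linarith [ht.1]
  have h4 : (dep w : ℝ) < dep m := by linarith [ht.2]
  have h5 : dep m < dep w + 1 := by exact_mod_cast h3
  have h6 : dep w < dep m := by exact_mod_cast h4
  omega

theorem Gam_edge_free {m m' : ℕ} (hm : m < 190) (h0 : 0 < m) (hm' : m' < 190) (h0' : 0 < m')
    (hne : m < m') {s t : ℝ} (hs : s ∈ Set.Ioo (0 : ℝ) 1) (ht : t ∈ Set.Ioo (0 : ℝ) 1) :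
    Gam m s ≠ Gam m' t := by
  intro h
  have hs' : s ∈ Set.Icc (0 : ℝ) 1 := ⟨hs.1.le, hs.2.le⟩
  have ht' : t ∈ Set.Icc (0 : ℝ) 1 := ⟨ht.1.le, ht.2.le⟩
  have h1 := congrArg norm h
  rw [norm_Gam hm h0 hs', norm_Gam hm' h0' ht'] at h1
  have h2 : (dep m : ℝ) + s = dep m' + t := by linarith
  have h3 : (dep m : ℝ) < dep m' + 1 := by linarith [ht.1, ht.2, hs.1, hs.2]
  have h4 : (dep m' : ℝ) < dep m + 1 := by linarith [ht.1, ht.2, hs.1, hs.2]
  have h5 : dep m < dep m' + 1 := by exact_mod_cast h3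
  have h6 : dep m' < dep m + 1 := by exact_mod_cast h4
  have hd : dep m = dep m' := by omega
  have hst : s = t := by rw [hd] at h2; linarith
  subst hst
  obtain ⟨d1, -⟩ := dep_bounds m hm h0
  have d1' : (1 : ℝ) ≤ dep m := by exact_mod_cast d1
  have ha := ang_pos hm h0 hs'
  have hb := ang_pos hm' h0' hs'
  have h7 := (pt_inj (by linarith [hs.1]) (rad_nonneg hm' h0' hs') h ha.1 ha.2 hb.1 hb.2).2
  obtain ⟨n1, n2⟩ := num_mono hm' h0 hne hd
  have n1' : (num m : ℝ) < num m' := by exact_mod_cast n1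
  have n2' : (pnum m : ℝ) ≤ pnum m' := by exact_mod_cast n2
  have hpi := Real.pi_pos
  unfold ang at h7
  have h8 : (1 - s) * (pnum m : ℝ) + s * num m = (1 - s) * pnum m' + s * num m' := by
    have h9 : ((1 - s) * (pnum m : ℝ) + s * num m) * π = ((1 - s) * pnum m' + s * num m') * π := by
      linarith
    exact mul_right_cancel₀ hpi.ne' h9
  nlinarith [hs.1, hs.2]

theorem phi_inj {u v : ℕ} (hu : u < 190) (hv : v < 190) (h : phi u = phi v) : u = v := by
  have h1 := congrArg norm h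
  rw [norm_phi, norm_phi] at h1
  have h2 : (dep u : ℝ) = dep v := by linarith
  have hd : dep u = dep v := by exact_mod_cast h2
  rcases Nat.eq_zero_or_pos u with hu0 | hu0
  · rcases Nat.eq_zero_or_pos v with hv0 | hv0
    · omega
    · have := (dep_bounds v hv hv0).1
      rw [← hd, hu0] at this
      exact absurd this (by decide)
  · rcases Nat.eq_zero_or_pos v with hv0 | hv0
    · have := (dep_bounds u hu hu0).1
      rw [hd, hv0] at this
      exact absurd this (by decide)
    · have d1 : (1 : ℝ) ≤ dep u := by exact_mod_cast (dep_bounds u hu hu0).1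
      have hpi := Real.pi_pos
      have key : ∀ w < 190, 0 < w → 0 < (num w : ℝ) * π / 96 ∧ (num w : ℝ) * π / 96 < 2 * π := by
        intro w hw hw0
        obtain ⟨k1, k2, -⟩ := num_bounds w hw hw0
        have k1' : (0 : ℝ) < num w := by exact_mod_cast k1
        have k2' : (num w : ℝ) < 192 := by exact_mod_cast k2
        constructor
        · positivity
        · nlinarith
      have h3 := (pt_inj (by linarith) (by positivity) h (key u hu hu0).1 (key u hu hu0).2
        (key v hv hv0).1 (key v hv hv0).2).2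
      have h4 : (num u : ℝ) = num v := by
        have h5 : (num u : ℝ) * π = num v * π := by linarith
        exact mul_right_cancel₀ hpi.ne' h5
      have h6 : num u = num v := by exact_mod_cast h4
      rcases Nat.lt_trichotomy u v with h7 | h7 | h7
      · have := (num_mono hv hu0 h7 hd).1
        omega
      · exact h7
      · have := (num_mono hu hv0 h7 hd.symm).1
        omega

/-- The positions of the vertices. -/
noncomputable def phiF (v : Fin 190) : ℂ := phi v.1

/-- The arcs. -/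
noncomputable def gamF (u v : Fin 190) (t : ℝ) : ℂ := if u.1 < v.1 then Gam v.1 t else Gam u.1 (1 - t)

theorem gamF_spec {u v : Fin 190} (h : T.Adj u v) :
    (u.1 < v.1 ∧ 0 < v.1 ∧ par v.1 = u.1 ∧ ∀ t, gamF u v t = Gam v.1 t) ∨
    (v.1 < u.1 ∧ 0 < u.1 ∧ par u.1 = v.1 ∧ ∀ t, gamF u v t = Gam u.1 (1 - t)) := by
  rcases h with ⟨h1, h2⟩ | ⟨h1, h2⟩
  · have h3 := par_lt h1
    rw [h2] at h3
    exact Or.inl ⟨h3, h1, h2, fun t => by unfold gamF; rw [if_pos h3]⟩
  · have h3 := par_lt h1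
    rw [h2] at h3
    exact Or.inr ⟨h3, h1, h2, fun t => by unfold gamF; rw [if_neg (by omega)]⟩

theorem gamF_child {u v : Fin 190} (h : T.Adj u v) : ∃ c : Fin 190, 0 < c.1 ∧
    s(u, v) = s(c, parF c) ∧ (∀ t ∈ Set.Ioo (0 : ℝ) 1, ∃ t' ∈ Set.Ioo (0 : ℝ) 1,
      gamF u v t = Gam c.1 t') ∧ (∀ t ∈ Set.Icc (0 : ℝ) 1, ∃ t' ∈ Set.Icc (0 : ℝ) 1,
      gamF u v t = Gam c.1 t') := by
  rcases gamF_spec h with ⟨h1, h2, h3, h4⟩ | ⟨h1, h2, h3, h4⟩
  · refine ⟨v, h2, ?_, fun t ht => ⟨t, ht, h4 t⟩, fun t ht => ⟨t, ht, h4 t⟩⟩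
    have : parF v = u := Fin.ext h3
    rw [this, Sym2.eq_swap]
  · refine ⟨u, h2, ?_, fun t ht => ⟨1 - t, ⟨by linarith [ht.2], by linarith [ht.1]⟩, h4 t⟩,
      fun t ht => ⟨1 - t, ⟨by linarith [ht.2], by linarith [ht.1]⟩, h4 t⟩⟩
    have : parF u = v := Fin.ext h3
    rw [this]

theorem T_drawing : IsDiscDrawing T phiF gamF where
  inj := fun u v h => Fin.ext (phi_inj u.2 v.2 h)
  arc := by
    intro u v h
    rcases gamF_spec h with ⟨h1, h2, h3, h4⟩ | ⟨h1, h2, h3, h4⟩
    · have : gamF u v = Gam v.1 := funext h4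
      rw [this]
      refine ⟨(Gam_continuous _).continuousOn, Gam_injOn v.2 h2, ?_, Gam_one _⟩
      rw [Gam_zero v.2 h2, h3]
      rfl
    · have : gamF u v = fun t => Gam u.1 (1 - t) := funext h4
      rw [this]
      refine ⟨((Gam_continuous _).comp (by fun_prop)).continuousOn, ?_, ?_, ?_⟩
      · intro s hs t ht hst
        have := Gam_injOn u.2 h2 (show (1 - s) ∈ Set.Icc (0 : ℝ) 1 from
          ⟨by linarith [hs.2], by linarith [hs.1]⟩) (show (1 - t) ∈ Set.Icc (0 : ℝ) 1 from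
          ⟨by linarith [ht.2], by linarith [ht.1]⟩) hst
        linarith
      · simp only [sub_zero]
        exact Gam_one _
      · simp only [sub_self]
        rw [Gam_zero u.2 h2, h3]
        rfl
  symm := by
    intro u v h t _
    rcases gamF_spec h with ⟨h1, h2, h3, h4⟩ | ⟨h1, h2, h3, h4⟩
    · rw [h4]
      unfold gamF
      rw [if_neg (by omega)]
    · rw [h4]
      unfold gamF
      rw [if_pos h1, sub_sub_cancel]
  vertex_free := by
    intro u v h t ht w
    obtain ⟨c, hc, -, h2, -⟩ := gamF_child h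
    obtain ⟨t', ht', h3⟩ := h2 t ht
    rw [h3]
    exact Gam_vertex_free c.2 hc ht' w.1
  edge_free := by
    intro u v x y h h' hne s hs t ht
    obtain ⟨c, hc, e1, h2, -⟩ := gamF_child h
    obtain ⟨c', hc', e1', h2', -⟩ := gamF_child h'
    obtain ⟨s', hs', h3⟩ := h2 s hs
    obtain ⟨t', ht', h3'⟩ := h2' t ht
    rw [h3, h3']
    rcases Nat.lt_trichotomy c.1 c'.1 with h4 | h4 | h4
    · exact Gam_edge_free c.2 hc c'.2 hc' h4 hs' ht'
    · exfalso
      have : c = c' := Fin.ext h4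
      subst this
      exact hne (e1.trans e1'.symm)
    · exact (Gam_edge_free c'.2 hc' c.2 hc h4 ht' hs').symm
  leaf_circle := by
    intro v hv
    have h := (T_isLeaf_iff v).1 hv
    have hd : dep v.1 = 6 := by unfold dep; split_ifs <;> omega
    show ‖phi v.1‖ = 1
    rw [norm_phi, hd]
    norm_num
  inner_disc := by
    intro v hv
    rw [T_isLeaf_iff] at hv
    have hd : dep v.1 ≤ 5 := by unfold dep; split_ifs <;> omega
    have hd' : (dep v.1 : ℝ) ≤ 5 := by exact_mod_cast hd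
    show ‖phi v.1‖ < 1
    rw [norm_phi]
    linarith
  edge_disc := by
    intro u v h t ht
    obtain ⟨c, hc, -, h2, -⟩ := gamF_child h
    obtain ⟨t', ht', h3⟩ := h2 t ht
    rw [h3]
    exact Gam_disc c.2 hc ht'

/-- The leaf with label `a`. -/
def lab (a : ℕ) : Fin 190 := if h : 94 + a < 190 then ⟨94 + a, h⟩ else 0

theorem lab_val {a : ℕ} (h : a < 96) : (lab a).1 = 94 + a := by
  unfold lab
  rw [dif_pos (by omega)]

theorem phi_leaf {a : ℕ} (h : a < 96) :
    phi (94 + a) = Complex.exp (-(((2 * a + 1) * π / 96 : ℝ) : ℂ) * Complex.I) := by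
  have hd : dep (94 + a) = 6 := by unfold dep; split_ifs <;> omega
  have hn : num (94 + a) = 2 * a + 1 := by
    unfold num
    rw [hd]
    norm_num
  unfold phi pt
  rw [hd, hn]
  push_cast
  rw [show (6 : ℂ) / 6 = 1 by norm_num, one_mul]

theorem T_labels : ClockwiseLabels T phiF (3 * 2 ^ (6 - 1)) lab := by
  refine ⟨⟨?_, ?_, ?_⟩, fun a => (2 * a + 1) * π / 96, ?_, ?_, ?_⟩
  · intro a ha
    have ha' : a < 96 := by simpa using ha
    show IsLeaf T (lab a)
    rw [T_isLeaf_iff, lab_val ha']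
    omega
  · intro a ha b hb h
    have ha' : a < 96 := by simpa using ha
    have hb' : b < 96 := by simpa using hb
    have h1 := congrArg Fin.val h
    rw [lab_val ha', lab_val hb'] at h1
    omega
  · intro v hv
    have h := (T_isLeaf_iff v).1 hv
    have h2 := v.2
    refine ⟨v.1 - 94, ?_, ?_⟩
    · show v.1 - 94 < 3 * 2 ^ (6 - 1)
      norm_num
      omega
    · apply Fin.ext
      rw [lab_val (by omega)]
      omega
  · intro a ha
    have ha' : a < 96 := by simpa using ha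
    show phi (lab a).1 = _
    rw [lab_val ha', phi_leaf ha']
  · intro a b hab _
    have hpi := Real.pi_pos
    have : (a : ℝ) < b := by exact_mod_cast hab
    simp only
    nlinarith
  · intro a ha
    have ha' : a < 96 := by simpa using ha
    have hpi := Real.pi_pos
    have : (a : ℝ) < 96 := by exact_mod_cast ha'
    simp only
    push_cast
    nlinarith

/-- The open sector around the positive real axis. -/
noncomputable def W : Set ℂ :=
  (fun p : ℝ × ℝ => pt p.1 p.2) '' (Set.Ioo (0 : ℝ) 1 ×ˢ Set.Ioo (-(π / 96)) (π / 96))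

theorem W_preconnected : IsPreconnected W := by
  apply IsPreconnected.image
  · exact isPreconnected_Ioo.prod isPreconnected_Ioo
  · apply Continuous.continuousOn
    unfold pt
    fun_prop

theorem W_subset : W ⊆ (planeGraph T gamF)ᶜ := by
  rintro z ⟨⟨r, α⟩, ⟨hr, hα⟩, rfl⟩ hz
  simp only at hr hα hz
  rcases hz with hz | ⟨u, v, h, t, ht, hz⟩
  · rw [mem_sphere_zero_iff_norm, norm_pt hr.1.le] at hz
    exact absurd hz hr.2.ne
  · obtain ⟨c, hc, -, -, h2⟩ := gamF_child h
    obtain ⟨t', ht', h3⟩ := h2 t ht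
    rw [h3] at hz
    obtain ⟨-, n, hn⟩ := pt_eq hr.1 (rad_nonneg c.2 hc ht') hz.symm
    obtain ⟨b1, b2⟩ := ang_bounds c.2 hc ht'
    have hpi := Real.pi_pos
    obtain ⟨a1, a2⟩ := hα
    have h4 : (n : ℝ) < 0 := by
      by_contra hcon
      push Not at hcon
      nlinarith
    have h5 : (-1 : ℝ) < n := by
      by_contra hcon
      push Not at hcon
      nlinarith
    have h6 : n < 0 := by exact_mod_cast h4
    have h7 : -1 < n := by exact_mod_cast h5
    omega

theorem closure_W {r α : ℝ} (hr : r ∈ Set.Icc (0 : ℝ) 1) (hα : α ∈ Set.Icc (-(π / 96)) (π / 96)) :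
    pt r α ∈ closure W := by
  have hpi := Real.pi_pos
  have hc : Continuous (fun p : ℝ × ℝ => pt p.1 p.2) := by
    unfold pt
    fun_prop
  apply image_closure_subset_closure_image hc
  refine ⟨(r, α), ?_, rfl⟩
  rw [closure_prod_eq, closure_Ioo (by norm_num), closure_Ioo (by linarith)]
  exact ⟨hr, hα⟩

theorem mem_frontier_of {z : ℂ} {p : ℂ} (hz : z ∈ W) (hp : p ∈ closure W)
    (hp' : p ∈ planeGraph T gamF) :
    p ∈ frontier (connectedComponentIn (planeGraph T gamF)ᶜ z) := by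
  have h1 : W ⊆ connectedComponentIn (planeGraph T gamF)ᶜ z :=
    W_preconnected.subset_connectedComponentIn hz W_subset
  refine ⟨closure_mono h1 hp, fun h2 => ?_⟩
  exact connectedComponentIn_subset _ _ (interior_subset h2) hp'

theorem T_face : ∃ z ∈ (planeGraph T gamF)ᶜ,
      phiF 0 ∈ frontier (connectedComponentIn (planeGraph T gamF)ᶜ z) ∧
      phiF (lab 0) ∈ frontier (connectedComponentIn (planeGraph T gamF)ᶜ z) ∧
      phiF (lab (3 * 2 ^ (6 - 1) - 1)) ∈
        frontier (connectedComponentIn (planeGraph T gamF)ᶜ z) := by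
  have hpi := Real.pi_pos
  have hz : pt (1 / 2) 0 ∈ W := by
    refine ⟨(1 / 2, 0), ⟨⟨by norm_num, by norm_num⟩, ⟨by simp only; linarith, by simp only; linarith⟩⟩, rfl⟩
  have hsph : ∀ a, a < 96 → phi (94 + a) ∈ planeGraph T gamF := by
    intro a ha
    left
    rw [mem_sphere_zero_iff_norm, norm_phi]
    have hd : dep (94 + a) = 6 := by unfold dep; split_ifs <;> omega
    rw [hd]
    norm_num
  refine ⟨_, W_subset hz, mem_frontier_of hz ?_ ?_, mem_frontier_of hz ?_ ?_,
    mem_frontier_of hz ?_ ?_⟩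
  · have h0 : phiF 0 = pt 0 0 := by
      show phi 0 = _
      rw [phi_zero]
      unfold pt
      simp
    rw [h0]
    exact closure_W ⟨le_rfl, by norm_num⟩ ⟨by linarith, by linarith⟩
  · right
    refine ⟨0, 1, Or.inl ⟨by decide, by decide⟩, 0, ⟨le_rfl, by norm_num⟩, ?_⟩
    have : gamF 0 1 0 = Gam 1 0 := by
      unfold gamF
      rw [if_pos (by decide)]
      rfl
    rw [this, Gam_zero (by norm_num) (by norm_num)]
    rfl
  · have h0 : phiF (lab 0) = pt 1 (π / 96) := by
      show phi (lab 0).1 = _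
      rw [lab_val (by norm_num), phi_leaf (by norm_num)]
      unfold pt
      push_cast
      norm_num
    rw [h0]
    exact closure_W ⟨by norm_num, le_rfl⟩ ⟨by linarith, by linarith⟩
  · show phi (lab 0).1 ∈ _
    rw [lab_val (by norm_num)]
    exact hsph 0 (by norm_num)
  · have h0 : phiF (lab (3 * 2 ^ (6 - 1) - 1)) = pt 1 (-(π / 96)) := by
      show phi (lab (3 * 2 ^ (6 - 1) - 1)).1 = _
      rw [lab_val (by norm_num), phi_leaf (by norm_num)]
      unfold pt
      rw [Complex.ofReal_one, one_mul, Complex.exp_eq_exp_iff_exists_int]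
      refine ⟨-1, ?_⟩
      push_cast
      norm_num
      ring
    rw [h0]
    exact closure_W ⟨by norm_num, le_rfl⟩ ⟨by linarith, by linarith⟩
  · show phi (lab (3 * 2 ^ (6 - 1) - 1)).1 ∈ _
    rw [lab_val (by norm_num)]
    exact hsph _ (by norm_num)

end Pool.Agent.Helper89_Snark
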