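import Pool.Agent.Helper89_Snark.Drawing
import Pool.Agent.Helper89_Snark.Colour

/-! `G` is a cyclically 6-edge-connected rotation `T_6`-snark. -/

namespace Pool.Agent.Helper89_Snark

theorem rotate : ∀ a < 96, ∀ b < 96,
    (!(isNb (94 + a) (94 + b)) || isNb (94 + (a + 32) % 96) (94 + (b + 32) % 96)) = true := by
  decide +kernel

theorem G_rotation : IsRotationSnark G 6 := by
  refine ⟨G_snark, T, 0, phiF, gamF, lab, T_le_G, T_isTi, T_drawing, T_labels, T_face, ?_⟩
  intro a ha b hb h
  have ha' : a < 96 := by simpa using ha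
  have hb' : b < 96 := by simpa using hb
  have h1 := rotate a ha' b hb'
  rw [G_adj', lab_val ha', lab_val hb'] at h
  rw [h, Bool.not_true, Bool.false_or] at h1
  have e1 : (a + 2 ^ (6 - 1)) % (3 * 2 ^ (6 - 1)) = (a + 32) % 96 := by norm_num
  have e2 : (b + 2 ^ (6 - 1)) % (3 * 2 ^ (6 - 1)) = (b + 32) % 96 := by norm_num
  rw [G_adj', e1, e2, lab_val (Nat.mod_lt _ (by norm_num)), lab_val (Nat.mod_lt _ (by norm_num))]
  exact h1

end Pool.Agent.Helper89_Snark
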