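import Pool.Agent.Helper89_Snark.Data

/-! Kernel-checked edge-disjoint path systems in the 190-vertex graph. -/

namespace Pool.Agent.Helper89_Snark

/-- Follow one path given by the base-4 digits of `code` (ended by the digit `3`) from the vertex
`cur`, recording the darts used in the bit mask `mask`; fail on a repeated dart.
Returns the end vertex, the rest of the code and the new mask. -/
def runPath : ℕ → ℕ → ℕ → ℕ → Option (ℕ × ℕ × ℕ)
  | 0, _, _, _ => none
  | fuel + 1, cur, code, mask =>
    bif Nat.beq (code % 4) 3 then some (cur, code / 4, mask)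
    else
      bif Nat.testBit mask (3 * cur + code % 4) then none
      else runPath fuel (nb cur (code % 4)) (code / 4) (mask ||| (1 <<< (3 * cur + code % 4)))

/-- `w` is a neighbour of `v`. -/
def isNb (v w : ℕ) : Bool := Nat.beq (nb v 0) w || Nat.beq (nb v 1) w || Nat.beq (nb v 2) w

/-- Run `n` paths from the neighbours of `r` to the neighbours of `v`. -/
def runPaths (r v : ℕ) : ℕ → ℕ → ℕ → Option (ℕ × ℕ)
  | 0, code, mask => some (code, mask)
  | n + 1, code, mask =>
    match runPath 60 (nb r (code % 4)) (code / 4) mask with
    | none => none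
    | some (e, code', mask') =>
      bif Nat.blt (code % 4) 3 && isNb v e then runPaths r v n code' mask' else none

/-- closed balls of radius one around `r` and `v` meet. -/
def ballsMeet (r v : ℕ) : Bool :=
  Nat.beq r v || isNb r v ||
    isNb r (nb v 0) || isNb r (nb v 1) || isNb r (nb v 2)

/-- Check the path systems from `r` to `v, v+1, ..., v+n-1`. -/
def checkRoot (r : ℕ) : ℕ → ℕ → ℕ → Bool
  | 0, _, _ => true
  | n + 1, v, code =>
    bif ballsMeet r v then checkRoot r n (v + 1) code
    else
      match runPaths r v 6 code 0 with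
      | none => false
      | some (code', _) => checkRoot r n (v + 1) code'

theorem checkRoot4 : checkRoot 4 190 0 code4 = true := by decide +kernel
theorem checkRoot5 : checkRoot 5 190 0 code5 = true := by decide +kernel
theorem checkRoot6 : checkRoot 6 190 0 code6 = true := by decide +kernel
theorem checkRoot7 : checkRoot 7 190 0 code7 = true := by decide +kernel
theorem checkRoot8 : checkRoot 8 190 0 code8 = true := by decide +kernel
theorem checkRoot9 : checkRoot 9 190 0 code9 = true := by decide +kernel

theorem isNb_iff (v w : ℕ) : isNb v w = true ↔ ∃ k, k < 3 ∧ nb v k = w := by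
  unfold isNb
  simp only [Bool.or_eq_true, Nat.beq_eq]
  constructor
  · rintro ((h | h) | h)
    · exact ⟨0, by norm_num, h⟩
    · exact ⟨1, by norm_num, h⟩
    · exact ⟨2, by norm_num, h⟩
  · rintro ⟨k, hk, h⟩
    interval_cases k
    · exact Or.inl (Or.inl h)
    · exact Or.inl (Or.inr h)
    · exact Or.inr h

theorem nb_lt : ∀ v < 190, ∀ k < 3, nb v k < 190 := by decide +kernel
theorem nb_symm : ∀ v < 190, ∀ k < 3, isNb (nb v k) v = true := by decide +kernel
theorem nb_ne : ∀ v < 190, ∀ k < 3, nb v k ≠ v := by decide +kernel
theorem nb_inj : ∀ v < 190, ∀ k < 3, ∀ l < 3, nb v k = nb v l → k = l := by decide +kernel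

section Sound

variable (X : ℕ → Prop)

/-- the dart `d` leaves `X`. -/
def Crossing (d : ℕ) : Prop := X (d / 3) ∧ ¬ X (nb (d / 3) (d % 3))

theorem runPath_sound : ∀ (fuel cur code mask e code' mask' : ℕ),
    runPath fuel cur code mask = some (e, code', mask') →
      (∀ d, mask.testBit d = true → mask'.testBit d = true) ∧
      (X cur → ¬ X e → ∃ d, Crossing X d ∧ mask'.testBit d = true ∧ mask.testBit d = false)
  | 0, _, _, _, _, _, _, h => by simp [runPath] at h
  | fuel + 1, cur, code, mask, e, code', mask', h => by
    unfold runPath at h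
    by_cases h3 : Nat.beq (code % 4) 3 = true
    · rw [h3, cond_true] at h
      simp only [Option.some.injEq, Prod.mk.injEq] at h
      obtain ⟨rfl, rfl, rfl⟩ := h
      exact ⟨fun d hd => hd, fun hX hnX => absurd hX hnX⟩
    · rw [Bool.not_eq_true] at h3
      rw [h3, cond_false] at h
      by_cases ht : Nat.testBit mask (3 * cur + code % 4) = true
      · rw [ht, cond_true] at h; exact absurd h (by simp)
      · rw [Bool.not_eq_true] at ht
        rw [ht, cond_false] at h
        obtain ⟨h1, h2⟩ := runPath_sound fuel _ _ _ _ _ _ h
        have hlt : code % 4 < 3 := by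
          have h4 : code % 4 < 4 := Nat.mod_lt _ (by norm_num)
          have : code % 4 ≠ 3 := by
            intro h5; rw [h5] at h3; exact absurd h3 (by decide)
          omega
        refine ⟨fun d hd => h1 d ?_, fun hX hnX => ?_⟩
        · rw [Nat.testBit_or, hd, Bool.true_or]
        · by_cases hY : X (nb cur (code % 4))
          · obtain ⟨d, hd1, hd2, hd3⟩ := h2 hY hnX
            refine ⟨d, hd1, hd2, ?_⟩
            rw [Nat.testBit_or, Bool.or_eq_false_iff] at hd3
            exact hd3.1
          · refine ⟨3 * cur + code % 4, ?_, ?_, ht⟩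
            · unfold Crossing
              rw [show (3 * cur + code % 4) / 3 = cur by omega,
                show (3 * cur + code % 4) % 3 = code % 4 by omega]
              exact ⟨hX, hY⟩
            · apply h1
              rw [Nat.testBit_or, Nat.testBit_shiftLeft]
              simp

theorem runPaths_sound (r v : ℕ) (hr : ∀ k < 3, X (nb r k)) (hv : ∀ k < 3, ¬ X (nb v k)) :
    ∀ (n code mask code' mask' : ℕ), runPaths r v n code mask = some (code', mask') →
      (∀ d, mask.testBit d = true → mask'.testBit d = true) ∧
      ∃ D : Finset ℕ, D.card = n ∧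
        ∀ d ∈ D, Crossing X d ∧ mask'.testBit d = true ∧ mask.testBit d = false
  | 0, code, mask, code', mask', h => by
    unfold runPaths at h
    simp only [Option.some.injEq, Prod.mk.injEq] at h
    obtain ⟨rfl, rfl⟩ := h
    exact ⟨fun d hd => hd, ∅, rfl, by simp⟩
  | n + 1, code, mask, code', mask', h => by
    unfold runPaths at h
    split at h
    · exact absurd h (by simp)
    · rename_i e c1 m1 heq
      by_cases hc : (Nat.blt (code % 4) 3 && isNb v e) = true
      · rw [hc, cond_true] at h
        rw [Bool.and_eq_true] at hc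
        obtain ⟨hc1, hc2⟩ := hc
        have hlt : code % 4 < 3 := by simpa [Nat.blt_eq] using hc1
        obtain ⟨k, hk, hke⟩ := (isNb_iff v e).1 hc2
        obtain ⟨a1, a2⟩ := runPath_sound X _ _ _ _ _ _ _ heq
        obtain ⟨d, hd1, hd2, hd3⟩ := a2 (hr _ hlt) (hke ▸ hv k hk)
        obtain ⟨b1, D, hD1, hD2⟩ := runPaths_sound r v hr hv n _ _ _ _ h
        refine ⟨fun x hx => b1 x (a1 x hx), insert d D, ?_, ?_⟩
        · rw [Finset.card_insert_of_notMem, hD1]
          intro hmem
          have := (hD2 d hmem).2.2
          rw [hd2] at this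
          exact absurd this (by simp)
        · intro x hx
          rcases Finset.mem_insert.1 hx with rfl | hx
          · exact ⟨hd1, b1 _ hd2, hd3⟩
          · obtain ⟨c1, c2, c3⟩ := hD2 x hx
            refine ⟨c1, c2, ?_⟩
            by_contra hcon
            rw [Bool.not_eq_false] at hcon
            rw [a1 x hcon] at c3
            exact absurd c3 (by simp)
      · rw [Bool.not_eq_true] at hc
        rw [hc, cond_false] at h
        exact absurd h (by simp)

theorem checkRoot_sound (r : ℕ) : ∀ (n v code : ℕ), checkRoot r n v code = true →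
    ∀ w, v ≤ w → w < v + n →
      ballsMeet r w = true ∨ ∃ code code' mask', runPaths r w 6 code 0 = some (code', mask')
  | 0, v, code, _, w, h1, h2 => by omega
  | n + 1, v, code, h, w, h1, h2 => by
    unfold checkRoot at h
    by_cases hb : ballsMeet r v = true
    · rw [hb, cond_true] at h
      rcases Nat.eq_or_lt_of_le h1 with rfl | h1
      · exact Or.inl hb
      · exact checkRoot_sound r n (v + 1) code h w h1 (by omega)
    · rw [Bool.not_eq_true] at hb
      rw [hb, cond_false] at h
      split at h
      · exact absurd h (by simp)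
      · rename_i c1 m1 heq
        rcases Nat.eq_or_lt_of_le h1 with rfl | h1
        · exact Or.inr ⟨_, _, _, heq⟩
        · exact checkRoot_sound r n (v + 1) c1 h w h1 (by omega)

end Sound

/-- For the six roots `4, …, 9` and every vertex `v` whose ball is disjoint from the ball of the
root, any vertex set containing the neighbours of the root and none of the neighbours of `v` is
left by six darts. -/
theorem six_darts (r : ℕ) (hr : 4 ≤ r) (hr' : r < 10) (v : ℕ) (hv : v < 190)
    (hb : ballsMeet r v = false) (X : ℕ → Prop) (hX : ∀ k < 3, X (nb r k))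
    (hX' : ∀ k < 3, ¬ X (nb v k)) : ∃ D : Finset ℕ, D.card = 6 ∧ ∀ d ∈ D, Crossing X d := by
  have key : ∃ code, checkRoot r 190 0 code = true := by
    interval_cases r
    · exact ⟨_, checkRoot4⟩
    · exact ⟨_, checkRoot5⟩
    · exact ⟨_, checkRoot6⟩
    · exact ⟨_, checkRoot7⟩
    · exact ⟨_, checkRoot8⟩
    · exact ⟨_, checkRoot9⟩
  obtain ⟨code, hcode⟩ := key
  rcases checkRoot_sound r 190 0 code hcode v (Nat.zero_le _) (by omega) with h | ⟨c, c', m', h⟩
  · rw [hb] at h; exact absurd h (by simp)
  · obtain ⟨-, D, hD, hD'⟩ := runPaths_sound X r v hX hX' 6 c 0 c' m' h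
    exact ⟨D, hD, fun d hd => (hD' d hd).1⟩

end Pool.Agent.Helper89_Snark
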