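import Pool.Agent.Helper89_Snark.Flow
import Pool.Agent.Helper89_Snark.Defs

/-! The 190-vertex graph `G`: cubic, girth at least six, cyclically 6-edge-connected. -/

namespace Pool.Agent.Helper89_Snark

/-- The graph. -/
def G : SimpleGraph (Fin 190) where
  Adj u v := isNb u.1 v.1 = true
  symm := ⟨fun u v h => by
    obtain ⟨k, hk, h⟩ := (isNb_iff _ _).1 h
    rw [← h]
    exact nb_symm _ u.2 k hk⟩
  loopless := ⟨fun u h => by
    obtain ⟨k, hk, h⟩ := (isNb_iff _ _).1 h
    exact nb_ne _ u.2 k hk h⟩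

theorem G_adj {u v : Fin 190} : G.Adj u v ↔ ∃ k, k < 3 ∧ nb u.1 k = v.1 := isNb_iff _ _

theorem G_adj' {u v : Fin 190} : G.Adj u v ↔ isNb u.1 v.1 = true := Iff.rfl

/-- the `k`-th neighbour as an element of `Fin 190`. -/
def nbF (v : Fin 190) (k : Fin 3) : Fin 190 := ⟨nb v.1 k.1, nb_lt _ v.2 _ k.2⟩

theorem G_adj_nbF (v : Fin 190) (k : Fin 3) : G.Adj v (nbF v k) :=
  G_adj.2 ⟨k.1, k.2, rfl⟩

theorem nbF_injective (v : Fin 190) : Function.Injective (nbF v) := by
  intro k l h
  apply Fin.ext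
  exact nb_inj _ v.2 _ k.2 _ l.2 (congrArg Fin.val h)

theorem G_neighborSet (v : Fin 190) : G.neighborSet v = Set.range (nbF v) := by
  ext w
  rw [SimpleGraph.mem_neighborSet, G_adj]
  constructor
  · rintro ⟨k, hk, h⟩
    exact ⟨⟨k, hk⟩, Fin.ext h⟩
  · rintro ⟨k, rfl⟩
    exact ⟨k.1, k.2, rfl⟩

theorem G_cubic (v : Fin 190) : (G.neighborSet v).ncard = 3 := by
  rw [G_neighborSet, ← Set.image_univ, Set.ncard_image_of_injective _ (nbF_injective v)]
  simp [Set.ncard_univ]

theorem no3 : ∀ v < 190, ∀ a < 3, ∀ b < 3, isNb (nb (nb v a) b) v = false := by decide +kernel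

/-- no closed non-backtracking walk of length four. -/
def ck4 (v a b c : ℕ) : Bool :=
  Nat.beq (nb (nb v a) b) v || Nat.beq (nb (nb (nb v a) b) c) (nb v a) ||
    !(isNb (nb (nb (nb v a) b) c) v)

/-- no closed non-backtracking walk of length five. -/
def ck5 (v a b c d : ℕ) : Bool :=
  Nat.beq (nb (nb v a) b) v || Nat.beq (nb (nb (nb v a) b) c) (nb v a) ||
    Nat.beq (nb (nb (nb (nb v a) b) c) d) (nb (nb v a) b) ||
    !(isNb (nb (nb (nb (nb v a) b) c) d) v)

theorem ck4_true : ∀ v < 190, ∀ a < 3, ∀ b < 3, ∀ c < 3, ck4 v a b c = true := by decide +kernel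

theorem ck5_true : ∀ v < 190, ∀ a < 3, ∀ b < 3, ∀ c < 3, ∀ d < 3, ck5 v a b c d = true := by
  decide +kernel

theorem no4 (v : ℕ) (hv : v < 190) (a : ℕ) (ha : a < 3) (b : ℕ) (hb : b < 3) (c : ℕ) (hc : c < 3)
    (h1 : nb (nb v a) b ≠ v) (h2 : nb (nb (nb v a) b) c ≠ nb v a) :
    isNb (nb (nb (nb v a) b) c) v = false := by
  have h := ck4_true v hv a ha b hb c hc
  unfold ck4 at h
  simp only [Bool.or_eq_true, Nat.beq_eq, Bool.not_eq_true'] at h
  tauto

theorem no5 (v : ℕ) (hv : v < 190) (a : ℕ) (ha : a < 3) (b : ℕ) (hb : b < 3) (c : ℕ) (hc : c < 3)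
    (d : ℕ) (hd : d < 3)
    (h1 : nb (nb v a) b ≠ v) (h2 : nb (nb (nb v a) b) c ≠ nb v a)
    (h3 : nb (nb (nb (nb v a) b) c) d ≠ nb (nb v a) b) :
    isNb (nb (nb (nb (nb v a) b) c) d) v = false := by
  have h := ck5_true v hv a ha b hb c hc d hd
  unfold ck5 at h
  simp only [Bool.or_eq_true, Nat.beq_eq, Bool.not_eq_true'] at h
  tauto

theorem G_girth : 6 ≤ G.egirth := by
  rw [show (6 : ℕ∞) = ((6 : ℕ) : ℕ∞) from rfl]
  rw [SimpleGraph.le_egirth]
  intro v p hp
  by_contra hlt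
  have hlt : p.length < 6 := by exact_mod_cast not_le.1 hlt
  have h3 := hp.three_le_length
  have hinj := hp.getVert_injOn'
  have hadj : ∀ i j, i < p.length → i + 1 = j → G.Adj (p.getVert i) (p.getVert j) :=
    fun i j hi hj => hj ▸ p.adj_getVert_succ hi
  have hend : p.getVert p.length = p.getVert 0 := p.getVert_length.trans p.getVert_zero.symm
  have hne : ∀ i j, i ≤ p.length - 1 → j ≤ p.length - 1 → i ≠ j →
      (p.getVert i).1 ≠ (p.getVert j).1 := by
    intro i j hi hj hij h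
    exact hij (hinj hi hj (Fin.ext h))
  obtain ⟨a, ha, hav⟩ := G_adj.1 (hadj 0 1 (by omega) rfl)
  obtain ⟨b, hb, hbv⟩ := G_adj.1 (hadj 1 2 (by omega) rfl)
  have hv : (p.getVert 0).1 < 190 := (p.getVert 0).2
  rcases (by omega : p.length = 3 ∨ p.length = 4 ∨ p.length = 5) with hl | hl | hl
  · have h2 := G_adj'.1 (hadj 2 3 (by omega) rfl)
    rw [hl] at hend
    rw [hend, ← hbv, ← hav, no3 _ hv a ha b hb] at h2
    exact absurd h2 (by simp)
  · obtain ⟨c, hc, hcv⟩ := G_adj.1 (hadj 2 3 (by omega) rfl)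
    have h2 := G_adj'.1 (hadj 3 4 (by omega) rfl)
    have n1 := hne 2 0 (by omega) (by omega) (by omega)
    have n2 := hne 3 1 (by omega) (by omega) (by omega)
    rw [hl] at hend
    rw [hend] at h2
    rw [← hcv, ← hbv, ← hav] at n2 h2
    rw [← hbv, ← hav] at n1
    rw [no4 _ hv a ha b hb c hc n1 n2] at h2
    exact absurd h2 (by simp)
  · obtain ⟨c, hc, hcv⟩ := G_adj.1 (hadj 2 3 (by omega) rfl)
    obtain ⟨d, hd, hdv⟩ := G_adj.1 (hadj 3 4 (by omega) rfl)
    have h2 := G_adj'.1 (hadj 4 5 (by omega) rfl)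
    have n1 := hne 2 0 (by omega) (by omega) (by omega)
    have n2 := hne 3 1 (by omega) (by omega) (by omega)
    have n3 := hne 4 2 (by omega) (by omega) (by omega)
    rw [hl] at hend
    rw [hend] at h2
    rw [← hdv, ← hcv, ← hbv, ← hav] at n3 h2
    rw [← hcv, ← hbv, ← hav] at n2
    rw [← hbv, ← hav] at n1
    rw [no5 _ hv a ha b hb c hc d hd n1 n2 n3] at h2
    exact absurd h2 (by simp)

/-- two vertices with neighbours in the same component -/
theorem crossing_card {S : Finset (Sym2 (Fin 190))}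
    (K : (G.deleteEdges (S : Set (Sym2 (Fin 190)))).ConnectedComponent) (D : Finset ℕ)
    (hD : ∀ d ∈ D, Crossing (fun n => ∃ h : n < 190, (⟨n, h⟩ : Fin 190) ∈ K.supp) d) :
    D.card ≤ S.card := by
  classical
  have hdart : ∀ d ∈ D, ∃ (u : Fin 190) (k : Fin 3), u ∈ K.supp ∧ nbF u k ∉ K.supp ∧
      d = 3 * u.1 + k.1 := by
    intro d hd
    obtain ⟨⟨h1, h2⟩, h3⟩ := hD d hd
    refine ⟨⟨d / 3, h1⟩, ⟨d % 3, Nat.mod_lt _ (by norm_num)⟩, h2, fun h4 => h3 ⟨?_, h4⟩, ?_⟩
    · exact nb_lt _ h1 _ (Nat.mod_lt _ (by norm_num))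
    · show d = 3 * (d / 3) + d % 3
      omega
  choose! u k hu hk hd using hdart
  apply Finset.card_le_card_of_injOn (fun d => s(u d, nbF (u d) (k d)))
  · intro d hdD
    have h1 := hu d hdD
    have h2 := hk d hdD
    by_contra hS
    apply h2
    have hadj : (G.deleteEdges (S : Set (Sym2 (Fin 190)))).Adj (u d) (nbF (u d) (k d)) := by
      rw [SimpleGraph.deleteEdges_adj]
      exact ⟨G_adj_nbF _ _, hS⟩
    rw [SimpleGraph.ConnectedComponent.mem_supp_iff] at h1 ⊢
    rw [← h1]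
    exact SimpleGraph.ConnectedComponent.sound hadj.reachable.symm
  · intro d hdD e heD h
    simp only [Sym2.eq_iff] at h
    rcases h with ⟨h1, h2⟩ | ⟨h1, h2⟩
    · rw [hd d hdD, hd e heD]
      rw [h1] at h2
      rw [h1, nbF_injective _ h2]
    · exact absurd (h1 ▸ hu d hdD) (hk e heD)

theorem stars_disjoint : ∀ r < 10, 4 ≤ r → ∀ s < 10, 4 ≤ s → r ≠ s → isNb r s = false := by
  decide +kernel

/-- Every component with a cycle contains a vertex with all its neighbours. -/
theorem exists_inner {S : Finset (Sym2 (Fin 190))} (hS : S.card < 6)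
    (C : (G.deleteEdges (S : Set (Sym2 (Fin 190)))).ConnectedComponent)
    (hC : ∃ (v : Fin 190) (p : (G.deleteEdges (S : Set (Sym2 (Fin 190)))).Walk v v),
      p.IsCycle ∧ v ∈ C.supp) : ∃ v ∈ C.supp, ∀ k, nbF v k ∈ C.supp := by
  classical
  by_contra hcon
  push Not at hcon
  obtain ⟨v, p, hp, hv⟩ := hC
  choose! k hk using hcon
  have hsupp : ∀ w ∈ p.support, w ∈ C.supp := by
    intro w hw
    rw [SimpleGraph.ConnectedComponent.mem_supp_iff] at hv ⊢
    rw [← hv]
    exact SimpleGraph.ConnectedComponent.sound (p.takeUntil w hw).reachable.symm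
  have hlen : 6 ≤ p.length := by
    have h1 := G_girth
    rw [show (6 : ℕ∞) = ((6 : ℕ) : ℕ∞) from rfl] at h1
    rw [SimpleGraph.le_egirth] at h1
    have h2 := h1 v (p.mapLe (SimpleGraph.deleteEdges_le _)) (hp.mapLe _)
    rw [SimpleGraph.Walk.length_map] at h2
    exact_mod_cast h2
  have hcard : 6 ≤ p.support.tail.toFinset.card := by
    rw [List.toFinset_card_of_nodup hp.support_nodup]
    simp only [List.length_tail, SimpleGraph.Walk.length_support]
    omega
  have hinj : Set.InjOn (fun w : Fin 190 => 3 * w.1 + (k w).1) (p.support.tail.toFinset : Set _) := by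
    intro w _ w' _ h
    have h1 := (k w).2
    have h2 := (k w').2
    apply Fin.ext
    simp only at h
    omega
  have := crossing_card C (p.support.tail.toFinset.image (fun w : Fin 190 => 3 * w.1 + (k w).1)) ?_
  · rw [Finset.card_image_of_injOn hinj] at this
    omega
  · intro d hd
    obtain ⟨w, hw, rfl⟩ := Finset.mem_image.1 hd
    have hw' : w ∈ C.supp := hsupp w (List.mem_of_mem_tail (List.mem_toFinset.1 hw))
    have h1 := (k w).2
    unfold Crossing
    rw [show (3 * w.1 + (k w).1) / 3 = w.1 by omega, show (3 * w.1 + (k w).1) % 3 = (k w).1 by omega]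
    exact ⟨⟨w.2, hw'⟩, fun ⟨h2, h3⟩ => hk w hw' h3⟩

theorem G_cyclic : CyclicallyEdgeConnected G 6 := by
  classical
  rintro S hSG hS ⟨C, D, hCD, hC, hD⟩
  -- a root with an intact star
  have hroot : ∃ r : Fin 190, 4 ≤ r.1 ∧ r.1 < 10 ∧ ∀ k, s(r, nbF r k) ∉ S := by
    by_contra hcon
    push Not at hcon
    choose! k hk using hcon
    have hinj : Set.InjOn (fun r : Fin 190 => s(r, nbF r (k r)))
        ((Finset.univ.filter (fun r : Fin 190 => 4 ≤ r.1 ∧ r.1 < 10) : Finset (Fin 190)) :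
          Set (Fin 190)) := by
      intro r hr s hs h
      simp only [Finset.coe_filter, Finset.mem_univ, true_and, Set.mem_ofPred_eq] at hr hs
      simp only [Sym2.eq_iff] at h
      rcases h with ⟨h1, -⟩ | ⟨h1, h2⟩
      · exact h1
      · by_contra hne
        have h3 : G.Adj s r := h1 ▸ G_adj_nbF s (k s)
        have h4 := stars_disjoint s.1 hs.2 hs.1 r.1 hr.2 hr.1 (fun h => hne (Fin.ext h.symm))
        rw [G_adj', h4] at h3
        exact absurd h3 (by simp)
    have h1 : (Finset.univ.filter (fun r : Fin 190 => 4 ≤ r.1 ∧ r.1 < 10)).card ≤ S.card := by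
      apply Finset.card_le_card_of_injOn _ _ hinj
      intro r hr
      simp only [Finset.coe_filter, Finset.mem_univ, true_and, Set.mem_ofPred_eq] at hr
      exact hk r hr.1 hr.2
    have h2 : (Finset.univ.filter (fun r : Fin 190 => 4 ≤ r.1 ∧ r.1 < 10)).card = 6 := by
      decide +kernel
    omega
  obtain ⟨r, hr4, hr10, hrS⟩ := hroot
  set K := (G.deleteEdges (S : Set (Sym2 (Fin 190)))).connectedComponentMk r with hKdef
  have hrK : r ∈ K.supp := by
    rw [SimpleGraph.ConnectedComponent.mem_supp_iff]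
  have hnK : ∀ k, nbF r k ∈ K.supp := by
    intro k
    have hadj : (G.deleteEdges (S : Set (Sym2 (Fin 190)))).Adj r (nbF r k) := by
      rw [SimpleGraph.deleteEdges_adj]
      exact ⟨G_adj_nbF _ _, hrS k⟩
    rw [SimpleGraph.ConnectedComponent.mem_supp_iff]
    exact SimpleGraph.ConnectedComponent.sound hadj.reachable.symm
  -- a component with a cycle different from `K`
  have main : ∀ E : (G.deleteEdges (S : Set (Sym2 (Fin 190)))).ConnectedComponent, K ≠ E →
      (∃ (v : Fin 190) (p : (G.deleteEdges (S : Set (Sym2 (Fin 190)))).Walk v v),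
        p.IsCycle ∧ v ∈ E.supp) → False := by
    intro E hE hcyc
    obtain ⟨v, hv, hvn⟩ := exists_inner hS E hcyc
    have hdis : ∀ w, w ∈ K.supp → w ∈ E.supp → False := by
      intro w h1 h2
      rw [SimpleGraph.ConnectedComponent.mem_supp_iff] at h1 h2
      exact hE (h1.symm.trans h2)
    have hXr : ∀ w : Fin 190, isNb r.1 w.1 = true → w ∈ K.supp := by
      intro w hw
      obtain ⟨k, hk, h⟩ := (isNb_iff _ _).1 hw
      have : nbF r ⟨k, hk⟩ = w := Fin.ext h
      rw [← this]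
      exact hnK _
    have hb : ballsMeet r.1 v.1 = false := by
      rw [Bool.eq_false_iff]
      intro hb
      unfold ballsMeet at hb
      simp only [Bool.or_eq_true, Nat.beq_eq] at hb
      rcases hb with (((hb | hb) | hb) | hb) | hb
      · have : r = v := Fin.ext hb
        exact hdis v (this ▸ hrK) hv
      · exact hdis v (hXr v hb) hv
      · exact hdis (nbF v 0) (hXr (nbF v 0) hb) (hvn 0)
      · exact hdis (nbF v 1) (hXr (nbF v 1) hb) (hvn 1)
      · exact hdis (nbF v 2) (hXr (nbF v 2) hb) (hvn 2)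
    obtain ⟨Dd, hDc, hDd⟩ := six_darts r.1 hr4 hr10 v.1 v.2 hb
      (fun n => ∃ h : n < 190, (⟨n, h⟩ : Fin 190) ∈ K.supp)
      (fun k hk => ⟨nb_lt _ r.2 _ hk, hnK ⟨k, hk⟩⟩)
      (fun k hk ⟨h1, h2⟩ => hdis _ h2 (hvn ⟨k, hk⟩))
    have := crossing_card K Dd hDd
    omega
  by_cases hKC : K = C
  · exact main D (hKC ▸ hCD) hD
  · exact main C hKC hC

end Pool.Agent.Helper89_Snark
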