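import Pool.Agent.Helper89_Snark.Graph

/-! The spanning tree `T ≅ T_6` of `G`. -/

namespace Pool.Agent.Helper89_Snark

/-- The parent of the vertex `m` in the tree. -/
def par (m : ℕ) : ℕ := if m ≤ 3 then 0 else (m - 2) / 2

/-- The distance of the vertex `m` from the centre `0`. -/
def dep (m : ℕ) : ℕ :=
  if m = 0 then 0 else if m ≤ 3 then 1 else if m ≤ 9 then 2 else if m ≤ 21 then 3
  else if m ≤ 45 then 4 else if m ≤ 93 then 5 else 6

theorem par_lt {m : ℕ} (h : 0 < m) : par m < m := by
  unfold par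
  split_ifs <;> omega

theorem dep_par : ∀ m < 190, 0 < m → dep m = dep (par m) + 1 := by decide +kernel

theorem nb_par : ∀ m < 190, 0 < m → isNb (par m) m = true := by decide +kernel

/-- The tree. -/
def T : SimpleGraph (Fin 190) where
  Adj u v := (0 < v.1 ∧ par v.1 = u.1) ∨ (0 < u.1 ∧ par u.1 = v.1)
  symm := ⟨fun u v h => h.symm⟩
  loopless := ⟨fun u h => by
    have h' : 0 < u.1 ∧ par u.1 = u.1 := by tauto
    have := par_lt h'.1
    omega⟩

theorem T_adj {u v : Fin 190} :
    T.Adj u v ↔ (0 < v.1 ∧ par v.1 = u.1) ∨ (0 < u.1 ∧ par u.1 = v.1) := Iff.rfl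

/-- the parent as an element of `Fin 190`. -/
def parF (v : Fin 190) : Fin 190 :=
  ⟨par v.1, lt_of_le_of_lt (by unfold par; split_ifs <;> omega : par v.1 ≤ v.1) v.2⟩

theorem T_adj_parF {v : Fin 190} (h : 0 < v.1) : T.Adj v (parF v) := Or.inr ⟨h, rfl⟩

theorem T_le_G : T ≤ G := by
  intro u v h
  rcases h with ⟨h1, h2⟩ | ⟨h1, h2⟩
  · have := nb_par v.1 v.2 h1
    rw [h2] at this
    exact this
  · have := nb_par u.1 u.2 h1
    rw [h2] at this
    exact SimpleGraph.Adj.symm (G := G) this

theorem T_walk : ∀ (n : ℕ) (v : Fin 190), v.1 = n → ∃ p : T.Walk v 0, p.length = dep v.1 := by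
  intro n
  induction n using Nat.strong_induction_on with
  | _ n ih =>
    intro v hv
    rcases Nat.eq_zero_or_pos v.1 with h0 | h0
    · have : v = 0 := Fin.ext h0
      subst this
      exact ⟨SimpleGraph.Walk.nil, rfl⟩
    · obtain ⟨p, hp⟩ := ih (parF v).1 (by rw [← hv]; exact par_lt h0) (parF v) rfl
      refine ⟨SimpleGraph.Walk.cons (T_adj_parF h0) p, ?_⟩
      rw [SimpleGraph.Walk.length_cons, hp, dep_par v.1 v.2 h0]
      rfl

theorem T_connected : T.Connected := by
  have h : ∀ v : Fin 190, T.Reachable v 0 := fun v => ⟨(T_walk v.1 v rfl).choose⟩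
  exact { preconnected := fun u v => (h u).trans (h v).symm, nonempty := ⟨0⟩ }

theorem T_edgeSet : T.edgeSet = (fun v : Fin 190 => s(v, parF v)) '' {v | 0 < v.1} := by
  ext e
  induction e using Sym2.ind with
  | _ u v =>
    rw [SimpleGraph.mem_edgeSet]
    constructor
    · rintro (⟨h1, h2⟩ | ⟨h1, h2⟩)
      · refine ⟨v, h1, ?_⟩
        have : parF v = u := Fin.ext h2
        simp only [this]
        exact Sym2.eq_swap
      · refine ⟨u, h1, ?_⟩
        have : parF u = v := Fin.ext h2
        simp only [this]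
    · rintro ⟨w, hw, h⟩
      simp only [Sym2.eq_iff] at h
      rcases h with ⟨h1, h2⟩ | ⟨h1, h2⟩
      · subst h1; subst h2
        exact T_adj_parF hw
      · subst h1; subst h2
        exact (T_adj_parF hw).symm

theorem T_isTree : T.IsTree := by
  rw [SimpleGraph.isTree_iff_connected_and_card]
  refine ⟨T_connected, ?_⟩
  have h1 : Nat.card T.edgeSet = T.edgeSet.ncard := rfl
  rw [h1, T_edgeSet, Set.InjOn.ncard_image]
  · have h2 : ({v : Fin 190 | 0 < v.1} : Set (Fin 190)) =
        ((Finset.univ.filter (fun v : Fin 190 => 0 < v.1) : Finset (Fin 190)) : Set (Fin 190)) := by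
      ext v; simp
    rw [h2, Set.ncard_coe_finset]
    have h3 : (Finset.univ.filter (fun v : Fin 190 => 0 < v.1)).card = 189 := by decide +kernel
    rw [h3]
    simp
  · intro u hu v hv h
    simp only [Sym2.eq_iff] at h
    rcases h with ⟨h1, -⟩ | ⟨h1, h2⟩
    · exact h1
    · exfalso
      have h3 := par_lt hu
      have h4 := par_lt hv
      have h5 : (parF u).1 = v.1 := congrArg Fin.val h2
      have h6 : u.1 = (parF v).1 := congrArg Fin.val h1
      simp only [parF] at h5 h6
      omega

theorem T_neighborSet_zero : T.neighborSet 0 = {1, 2, 3} := by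
  ext v
  simp only [SimpleGraph.mem_neighborSet, T_adj, Set.mem_insert_iff, Set.mem_singleton_iff,
    Fin.ext_iff]
  unfold par
  have : (0 : Fin 190).1 = 0 := rfl
  have : (1 : Fin 190).1 = 1 := rfl
  have : (2 : Fin 190).1 = 2 := rfl
  have : (3 : Fin 190).1 = 3 := rfl
  have := v.2
  split_ifs <;> omega

theorem T_neighborSet_inner (v : Fin 190) (h : 0 < v.1) (h' : v.1 < 94) :
    T.neighborSet v = {parF v, ⟨2 * v.1 + 2, by omega⟩, ⟨2 * v.1 + 3, by omega⟩} := by
  ext w
  simp only [SimpleGraph.mem_neighborSet, T_adj, Set.mem_insert_iff, Set.mem_singleton_iff,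
    Fin.ext_iff, parF]
  unfold par
  have := w.2
  split_ifs <;> omega

theorem T_neighborSet_leaf (v : Fin 190) (h : 94 ≤ v.1) : T.neighborSet v = {parF v} := by
  ext w
  simp only [SimpleGraph.mem_neighborSet, T_adj, Set.mem_singleton_iff, Fin.ext_iff, parF]
  unfold par
  have := w.2
  split_ifs <;> omega

theorem T_ncard_lt (v : Fin 190) (h : v.1 < 94) : (T.neighborSet v).ncard = 3 := by
  rcases Nat.eq_zero_or_pos v.1 with h0 | h0
  · have : v = 0 := Fin.ext h0
    subst this
    rw [T_neighborSet_zero]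
    exact Set.ncard_eq_three.2 ⟨1, 2, 3, by decide, by decide, by decide, rfl⟩
  · rw [T_neighborSet_inner v h0 h]
    refine Set.ncard_eq_three.2 ⟨_, _, _, ?_, ?_, ?_, rfl⟩
    · intro h1
      have h2 := congrArg Fin.val h1
      have h3 := par_lt h0
      simp only [parF] at h2
      omega
    · intro h1
      have h2 := congrArg Fin.val h1
      have h3 := par_lt h0
      simp only [parF] at h2
      omega
    · intro h1
      have h2 := congrArg Fin.val h1
      simp only at h2
      omega

theorem T_ncard_ge (v : Fin 190) (h : 94 ≤ v.1) : (T.neighborSet v).ncard = 1 := by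
  rw [T_neighborSet_leaf v h, Set.ncard_singleton]

theorem T_isLeaf_iff (v : Fin 190) : IsLeaf T v ↔ 94 ≤ v.1 := by
  unfold IsLeaf
  constructor
  · intro h
    by_contra hlt
    rw [T_ncard_lt v (by omega)] at h
    omega
  · exact T_ncard_ge v

theorem dep_le_of_walk : ∀ {u v : Fin 190} (p : T.Walk u v), dep u.1 ≤ dep v.1 + p.length := by
  intro u v p
  induction p with
  | nil => simp
  | cons h p ih =>
    rw [SimpleGraph.Walk.length_cons]
    rcases h with ⟨h1, h2⟩ | ⟨h1, h2⟩
    · have := dep_par _ (Fin.isLt _) h1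
      rw [h2] at this
      omega
    · have := dep_par _ (Fin.isLt _) h1
      rw [h2] at this
      omega

theorem T_dist (v : Fin 190) : T.dist 0 v = dep v.1 := by
  rw [SimpleGraph.dist_comm]
  obtain ⟨p, hp⟩ := T_walk v.1 v rfl
  apply le_antisymm
  · rw [← hp]
    exact SimpleGraph.dist_le p
  · obtain ⟨q, hq⟩ := (T_connected.preconnected v 0).exists_walk_length_eq_dist
    rw [← hq]
    have := dep_le_of_walk q
    have h0 : dep (0 : Fin 190).1 = 0 := rfl
    omega

theorem T_isTi : IsTi T 6 0 := by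
  refine ⟨T_isTree, fun v => ?_, T_ncard_lt 0 (by decide), fun v hv => ?_⟩
  · rcases Nat.lt_or_ge v.1 94 with h | h
    · exact Or.inr (T_ncard_lt v h)
    · exact Or.inl (T_ncard_ge v h)
  · rw [T_dist]
    have h := (T_isLeaf_iff v).1 hv
    unfold dep
    split_ifs <;> omega

end Pool.Agent.Helper89_Snark
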